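import Mathlib

namespace Pool.Agent.Results.MP_ba14eb_lc.UnboundedTypes

open Set

/-! ### Counting up to `κ` and types of nodes -/

/-- `Ty κ j`: isomorphism types of trees of depth `j`, with multiplicities counted up to `κ`. -/
def Ty (κ : ℕ) : ℕ → Type
  | 0 => Unit
  | j + 1 => Ty κ j → Fin (κ + 1)

instance Ty.finite (κ : ℕ) : ∀ j, Finite (Ty κ j)
  | 0 => inferInstanceAs (Finite Unit)
  | j + 1 => by
    have := Ty.finite κ j
    exact inferInstanceAs (Finite (Ty κ j → Fin (κ + 1)))

/-- The number of elements of `s`, counted up to `κ`. -/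
noncomputable def tr {V : Type} (κ : ℕ) (s : Set V) : Fin (κ + 1) :=
  ⟨(min s.encard κ).toNat, by
    have h : min s.encard κ ≤ (κ : ℕ∞) := min_le_right _ _
    have h2 := ENat.toNat_le_toNat h (ENat.natCast_ne_top κ)
    rw [ENat.toNat_natCast] at h2
    omega⟩

lemma tr_eq_iff {V W : Type} (κ : ℕ) (s : Set V) (t : Set W) :
    tr κ s = tr κ t ↔ min s.encard κ = min t.encard κ := by
  unfold tr
  rw [Fin.mk.injEq]
  constructor
  · intro h
    have h1 : min s.encard κ ≠ ⊤ := ne_top_of_le_ne_top (ENat.natCast_ne_top κ) (min_le_right _ _)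
    have h2 : min t.encard κ ≠ ⊤ := ne_top_of_le_ne_top (ENat.natCast_ne_top κ) (min_le_right _ _)
    rw [← ENat.natCast_toNat h1, ← ENat.natCast_toNat h2, h]
  · intro h
    rw [h]

lemma eqv_mono {V W : Type} {m κ : ℕ} (hm : m ≤ κ) {s : Set V} {t : Set W}
    (h : min s.encard κ = min t.encard κ) : min s.encard m = min t.encard m := by
  have hm' : (m : ℕ∞) ≤ κ := by exact_mod_cast hm
  have e1 : min s.encard m = min (min s.encard κ) m := by
    rw [min_assoc, min_eq_right hm']
  have e2 : min t.encard m = min (min t.encard κ) m := by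
    rw [min_assoc, min_eq_right hm']
  rw [e1, e2, h]

lemma eqv_nonempty {V W : Type} {m : ℕ} {s : Set V} {t : Set W}
    (h : min s.encard (m + 1 : ℕ) = min t.encard (m + 1 : ℕ)) (hs : s.Nonempty) :
    t.Nonempty := by
  rw [Set.nonempty_iff_ne_empty]
  rintro rfl
  have h0 : min (∅ : Set W).encard (m + 1 : ℕ) = 0 := by simp
  rw [h0] at h
  have h1 : (1 : ℕ∞) ≤ s.encard := Set.one_le_encard_iff_nonempty.mpr hs
  have h2 : (1 : ℕ∞) ≤ (m + 1 : ℕ) := by
    push_cast
    exact le_add_self
  have h3 := le_min h1 h2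
  rw [h] at h3
  simp at h3

lemma eqv_diff {V W : Type} {m : ℕ} {s : Set V} {t : Set W}
    (h : min s.encard (m + 1 : ℕ) = min t.encard (m + 1 : ℕ)) {x : V} {y : W} (hx : x ∈ s)
    (hy : y ∈ t) : min (s \ {x}).encard m = min (t \ {y}).encard m := by
  have h1 := Set.encard_sdiff_singleton_add_one hx
  have h2 := Set.encard_sdiff_singleton_add_one hy
  rw [← h1, ← h2] at h
  push_cast at h
  rw [min_add_add_right, min_add_add_right] at h
  exact WithTop.add_right_cancel ENat.one_ne_top h

/-- The type of the tree (of depth `j`) of descendants of the element `x`, when `x` is considered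
as an element of level `i`. -/
noncomputable def typ {V : Type} (P : ℕ → V → V → Prop) (κ : ℕ) : (j : ℕ) → ℕ → V → Ty κ j
  | 0, _, _ => ()
  | j + 1, i, x => fun σ => tr κ {z | P i z x ∧ typ P κ j (i + 1) z = σ}

lemma typ_embed {V W : Type} (P : ℕ → V → V → Prop) (Q : ℕ → W → W → Prop) (κ : ℕ) (f : V → W)
    (hf : Function.Injective f)
    (h : ∀ i x z, Q i z (f x) ↔ ∃ w, z = f w ∧ P i w x) :
    ∀ j i x, typ Q κ j i (f x) = typ P κ j i x := by
  intro j
  induction j with
  | zero => intro i x; rfl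
  | succ j ih =>
    intro i x
    funext σ
    change tr κ {z | Q i z (f x) ∧ typ Q κ j (i + 1) z = σ}
      = tr κ {z | P i z x ∧ typ P κ j (i + 1) z = σ}
    rw [tr_eq_iff]
    have e : {z | Q i z (f x) ∧ typ Q κ j (i + 1) z = σ}
        = f '' {z | P i z x ∧ typ P κ j (i + 1) z = σ} := by
      ext z
      simp only [Set.mem_ofPred_eq, mem_image, h]
      constructor
      · rintro ⟨⟨w, rfl, hw⟩, ht⟩
        exact ⟨w, ⟨hw, by rw [← ih]; exact ht⟩, rfl⟩
      · rintro ⟨w, ⟨hw, ht⟩, rfl⟩
        exact ⟨⟨w, rfl, hw⟩, by rw [ih]; exact ht⟩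
    rw [e, hf.encard_image]

/-! ### The structure `C`: all finite levelled forests -/

/-- The data of a finite levelled forest: parent function, level function, number of the copy. -/
abbrev Dat (n : ℕ) : Type := (Fin n → Option (Fin n)) × (Fin n → ℕ) × ℕ

/-- The disjoint union of all finite levelled forests (with infinitely many copies of each). -/
abbrev C : Type := Σ n : ℕ, Dat n × Fin n

/-- `cP i x y`: the element `x` has level `i + 1`, and its parent is `y`, of level `i`. -/
def cP (i : ℕ) (x y : C) : Prop :=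
  ∃ (n : ℕ) (d : Dat n) (a b : Fin n), x = ⟨n, d, a⟩ ∧ y = ⟨n, d, b⟩ ∧
    d.1 a = some b ∧ d.2.1 b = i ∧ d.2.1 a = i + 1

lemma cP_mk (i n : ℕ) (d : Dat n) (a b : Fin n) :
    cP i ⟨n, d, a⟩ ⟨n, d, b⟩ ↔ d.1 a = some b ∧ d.2.1 b = i ∧ d.2.1 a = i + 1 := by
  constructor
  · rintro ⟨n', d', a', b', h1, h2, h3⟩
    rw [Sigma.mk.injEq] at h1 h2
    obtain ⟨rfl, h1⟩ := h1
    obtain ⟨_, h2⟩ := h2
    have h1' := Prod.mk.inj (eq_of_heq h1)
    have h2' := Prod.mk.inj (eq_of_heq h2)
    obtain ⟨rfl, rfl⟩ := h1'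
    obtain ⟨_, rfl⟩ := h2'
    exact h3
  · intro h
    exact ⟨n, d, a, b, rfl, rfl, h⟩

/-- The axioms of levelled forests. -/
structure Forest {V : Type} (P : ℕ → V → V → Prop) : Prop where
  par : ∀ i j x y y', P i x y → P j x y' → i = j ∧ y = y'
  lev : ∀ i j x y z, P i x y → P j z x → j = i + 1
  chi : ∀ i j x z z', P i z x → P j z' x → i = j

lemma cP_left {i : ℕ} {n : ℕ} {d : Dat n} {a : Fin n} {y : C} (h : cP i ⟨n, d, a⟩ y) :
    ∃ b, y = ⟨n, d, b⟩ ∧ d.1 a = some b ∧ d.2.1 b = i ∧ d.2.1 a = i + 1 := by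
  obtain ⟨n', d', a', b', h1, h2, h3⟩ := h
  rw [Sigma.mk.injEq] at h1
  obtain ⟨rfl, h1⟩ := h1
  obtain ⟨rfl, rfl⟩ := Prod.mk.inj (eq_of_heq h1)
  exact ⟨b', h2, h3⟩

lemma cP_right {i : ℕ} {n : ℕ} {d : Dat n} {b : Fin n} {x : C} (h : cP i x ⟨n, d, b⟩) :
    ∃ a, x = ⟨n, d, a⟩ ∧ d.1 a = some b ∧ d.2.1 b = i ∧ d.2.1 a = i + 1 := by
  obtain ⟨n', d', a', b', h1, h2, h3⟩ := h
  rw [Sigma.mk.injEq] at h2
  obtain ⟨rfl, h2⟩ := h2
  obtain ⟨rfl, rfl⟩ := Prod.mk.inj (eq_of_heq h2)
  exact ⟨a', h1, h3⟩

lemma cP_forest : Forest cP where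
  par := by
    rintro i j ⟨n, d, a⟩ y y' h h'
    obtain ⟨b, rfl, h1, h2, h3⟩ := cP_left h
    obtain ⟨b', rfl, h1', h2', h3'⟩ := cP_left h'
    have hb : b = b' := by
      rw [h1] at h1'
      exact Option.some.inj h1'
    subst hb
    exact ⟨by omega, rfl⟩
  lev := by
    rintro i j ⟨n, d, a⟩ y z h h'
    obtain ⟨b, rfl, h1, h2, h3⟩ := cP_left h
    obtain ⟨b', rfl, h1', h2', h3'⟩ := cP_right h'
    omega
  chi := by
    rintro i j ⟨n, d, a⟩ z z' h h'
    obtain ⟨b, rfl, h1, h2, h3⟩ := cP_right h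
    obtain ⟨b', rfl, h1', h2', h3'⟩ := cP_right h'
    omega

/-- The block (forest) of an element of `C`. -/
def block (c : C) : Set C := {c' | ∃ a, c' = ⟨c.1, c.2.1, a⟩}

lemma block_finite (c : C) : (block c).Finite := by
  have : block c = Set.range (fun a : Fin c.1 => (⟨c.1, c.2.1, a⟩ : C)) := by
    ext c'
    simp [block, eq_comm]
  rw [this]
  exact Set.finite_range _

lemma mem_block (c : C) : c ∈ block c := ⟨c.2.2, rfl⟩

lemma block_up {c x y : C} {i : ℕ} (hx : x ∈ block c) (h : cP i x y) : y ∈ block c := by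
  obtain ⟨a, rfl⟩ := hx
  obtain ⟨b, rfl, _⟩ := cP_left h
  exact ⟨b, rfl⟩

lemma block_down {c x y : C} {i : ℕ} (hy : y ∈ block c) (h : cP i x y) : x ∈ block c := by
  obtain ⟨a, rfl⟩ := hy
  obtain ⟨b, rfl, _⟩ := cP_right h
  exact ⟨b, rfl⟩

/-! ### Every type is realised by infinitely many roots in `C` -/

/-- The relations of a levelled forest given by a parent function and a level function. -/
def vP {V : Type} (p : V → Option V) (lev : V → ℕ) (i : ℕ) (z x : V) : Prop :=
  p z = some x ∧ lev x = i ∧ lev z = i + 1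

/-- Parent function of a tree obtained by joining trees to a new root. -/
def joinP {I : Type} (a : I → ℕ) (V : I → Type) (p : ∀ σ, V σ → Option (V σ)) :
    Option (Σ σ : I, Fin (a σ) × V σ) → Option (Option (Σ σ : I, Fin (a σ) × V σ))
  | none => none
  | some ⟨σ, c, v⟩ => some ((p σ v).map (fun v' => ⟨σ, c, v'⟩))

/-- Level function of a tree obtained by joining trees to a new root. -/
def joinL {I : Type} (a : I → ℕ) (V : I → Type) (i : ℕ) (lev : ∀ σ, V σ → ℕ) :
    Option (Σ σ : I, Fin (a σ) × V σ) → ℕ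
  | none => i
  | some ⟨σ, _, v⟩ => lev σ v

lemma joinP_some {I : Type} (a : I → ℕ) (V : I → Type) (p : ∀ σ, V σ → Option (V σ)) (σ : I)
    (c : Fin (a σ)) (v : V σ) : joinP a V p (some ⟨σ, c, v⟩)
      = some ((p σ v).map (fun v' => ⟨σ, c, v'⟩)) := rfl

lemma exists_tree (κ : ℕ) : ∀ (j i : ℕ) (τ : Ty κ j), ∃ (V : Type) (_ : Finite V)
    (p : V → Option V) (lev : V → ℕ) (r : V), (∀ v, p v = none ↔ v = r) ∧ lev r = i ∧
    typ (vP p lev) κ j i r = τ := by
  intro j
  induction j with
  | zero =>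
    intro i τ
    refine ⟨Unit, inferInstance, fun _ => none, fun _ => i, (), fun v => ?_, rfl, ?_⟩
    · simp
    · rfl
  | succ j ih =>
    intro i τ
    choose V hV p lev r h1 h2 h3 using fun σ => ih (i + 1) σ
    obtain ⟨a, ha⟩ : ∃ a : Ty κ j → ℕ, ∀ σ, a σ = ((show Ty κ j → Fin (κ + 1) from τ) σ).1 :=
      ⟨_, fun σ => rfl⟩
    have hinjv : ∀ (σ : Ty κ j) (c : Fin (a σ)), Function.Injective
        (fun v : V σ => (⟨σ, c, v⟩ : Σ σ : Ty κ j, Fin (a σ) × V σ)) := by
      intro σ c v v' hv
      simp only [Sigma.mk.injEq, heq_eq_eq, Prod.mk.injEq, true_and] at hv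
      exact hv
    have hemb : ∀ (σ : Ty κ j) (c : Fin (a σ)) (j' i' : ℕ) (v : V σ),
        typ (vP (joinP a V p) (joinL a V i lev)) κ j' i' (some ⟨σ, c, v⟩)
          = typ (vP (p σ) (lev σ)) κ j' i' v := by
      intro σ c j' i' v
      apply typ_embed (vP (p σ) (lev σ)) (vP (joinP a V p) (joinL a V i lev)) κ
        (fun v : V σ => (some ⟨σ, c, v⟩ : Option (Σ σ : Ty κ j, Fin (a σ) × V σ)))
      · intro v v' hv
        exact hinjv σ c (Option.some.inj hv)
      · intro i x z
        constructor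
        · rintro ⟨hz1, hz2, hz3⟩
          rcases z with _ | ⟨σ', c', w⟩
          · exact absurd hz1 (by simp [joinP])
          · rw [joinP_some, Option.some.injEq, Option.map_eq_some_iff] at hz1
            obtain ⟨w', hw', he⟩ := hz1
            rw [Sigma.mk.injEq] at he
            obtain ⟨rfl, he⟩ := he
            obtain ⟨rfl, rfl⟩ := Prod.mk.inj (eq_of_heq he)
            exact ⟨w, rfl, hw', hz2, hz3⟩
        · rintro ⟨w, rfl, hw1, hw2, hw3⟩
          exact ⟨by rw [joinP_some, hw1]; rfl, hw2, hw3⟩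
    refine ⟨Option (Σ σ : Ty κ j, Fin (a σ) × V σ), inferInstance, joinP a V p,
      joinL a V i lev, none, ?_, rfl, ?_⟩
    · intro w
      rcases w with _ | ⟨σ, c, v⟩
      · simp [joinP]
      · simp [joinP_some]
    · funext σ
      change tr κ {z | vP (joinP a V p) (joinL a V i lev) i z none ∧
        typ (vP (joinP a V p) (joinL a V i lev)) κ j (i + 1) z = σ} = _
      have e : {z | vP (joinP a V p) (joinL a V i lev) i z none ∧
          typ (vP (joinP a V p) (joinL a V i lev)) κ j (i + 1) z = σ}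
          = (fun c : Fin (a σ) => (some ⟨σ, c, r σ⟩ : Option (Σ σ : Ty κ j, Fin (a σ) × V σ))) ''
            Set.univ := by
        ext z
        constructor
        · rintro ⟨⟨hz1, _, _⟩, ht⟩
          rcases z with _ | ⟨σ', c', w⟩
          · exact absurd hz1 (by simp [joinP])
          · have hw : p σ' w = none := by
              rw [joinP_some, Option.some.injEq, Option.map_eq_none_iff] at hz1
              exact hz1
            have hw' := (h1 σ' w).mp hw
            subst hw'
            rw [hemb, h3] at ht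
            subst ht
            exact ⟨c', trivial, rfl⟩
        · rintro ⟨c, _, rfl⟩
          refine ⟨⟨?_, rfl, h2 σ⟩, ?_⟩
          · rw [joinP_some, (h1 σ (r σ)).mpr rfl]
            rfl
          · rw [hemb, h3]
      have hinj : Function.Injective
          (fun c : Fin (a σ) => (some ⟨σ, c, r σ⟩ : Option (Σ σ : Ty κ j, Fin (a σ) × V σ))) := by
        intro c c' hab
        have := Option.some.inj hab
        simp only [Sigma.mk.injEq, heq_eq_eq, Prod.mk.injEq, and_true, true_and] at this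
        exact this
      rw [e]
      apply Fin.ext
      change (min (Set.encard _) (κ : ℕ∞)).toNat = _
      rw [hinj.encard_image, Set.encard_univ]
      have hc : ENat.card (Fin (a σ)) = (a σ : ℕ∞) := by simp
      have hle : a σ ≤ κ := by
        rw [ha]
        exact Nat.lt_succ_iff.mp (Fin.isLt _)
      rw [hc, min_eq_left (by exact_mod_cast hle), ENat.toNat_natCast, ha]

lemma supply (κ j i : ℕ) (τ : Ty κ j) (S : Set C) (hS : S.Finite) :
    ∃ c ∉ S, (∀ i' u, ¬ cP i' c u) ∧ (∀ i' z, cP i' z c → i' = i) ∧ typ cP κ j i c = τ := by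
  obtain ⟨V, hV, p, lev, r, h1, h2, h3⟩ := exists_tree κ j i τ
  obtain ⟨n, ⟨e⟩⟩ := Finite.exists_equiv_fin V
  let d : ℕ → Dat n := fun k => (fun a => (p (e.symm a)).map e, fun a => lev (e.symm a), k)
  have hinj : Function.Injective (fun k : ℕ => (⟨n, d k, e r⟩ : C)) := by
    intro k l hkl
    simp only [Sigma.mk.injEq, heq_eq_eq, Prod.mk.injEq, and_true, true_and, d] at hkl
    exact hkl
  obtain ⟨c, ⟨k, rfl⟩, hc⟩ := (Set.infinite_range_of_injective hinj).exists_notMem_finite hS
  refine ⟨_, hc, ?_, ?_, ?_⟩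
  · intro i' u hu
    obtain ⟨b, _, hb, _⟩ := cP_left hu
    have : p r = none := (h1 r).mpr rfl
    simp [d, this] at hb
  · intro i' z hz
    obtain ⟨a, _, _, hb, _⟩ := cP_right hz
    simp only [d, Equiv.symm_apply_apply] at hb
    omega
  · have := typ_embed (vP p lev) cP κ (fun v : V => (⟨n, d k, e v⟩ : C)) (by
      intro v v' hv
      simp only [Sigma.mk.injEq, heq_eq_eq, Prod.mk.injEq, true_and] at hv
      exact e.injective hv) (by
      intro i x z
      constructor
      · intro hz
        obtain ⟨a, rfl, ha1, ha2, ha3⟩ := cP_right hz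
        refine ⟨e.symm a, by simp, ?_, ?_, ?_⟩
        · simp only [d, Option.map_eq_some_iff] at ha1
          obtain ⟨w, hw, hw2⟩ := ha1
          rw [hw, e.injective hw2]
        · simpa [d] using ha2
        · simpa [d] using ha3
      · rintro ⟨w, rfl, hw1, hw2, hw3⟩
        rw [cP_mk]
        exact ⟨by simp [d, hw1], by simpa [d] using hw2, by simpa [d] using hw3⟩) j i r
    rw [this, h3]

/-! ### Models of the theory, and systems of partial isomorphisms -/

/-- `V` with the relations `P` is a levelled forest containing a copy `e` of `C` which is a union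
of connected components. -/
structure Mod {V : Type} (P : ℕ → V → V → Prop) (e : C → V) : Prop where
  forest : Forest P
  inj : Function.Injective e
  iff : ∀ i x y, P i (e x) (e y) ↔ cP i x y
  up : ∀ i x y, P i (e x) y → y ∈ Set.range e
  down : ∀ i x y, P i x (e y) → x ∈ Set.range e

/-- A finite partial isomorphism `G` with `m` steps of extension left. -/
structure Sys {V W : Type} (P : ℕ → V → V → Prop) (Q : ℕ → W → W → Prop) (e : C → V) (f : C → W)
    (κ D : ℕ) (F : Set C) (m : ℕ) (G : Set (V × W)) : Prop where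
  fin : G.Finite
  inj : ∀ g ∈ G, ∀ h ∈ G, (g.1 = h.1 ↔ g.2 = h.2)
  base : ∀ c ∈ F, (e c, f c) ∈ G
  upL : ∀ g ∈ G, ∀ i < D, ∀ u, P i g.1 u → ∃ v, (u, v) ∈ G ∧ Q i g.2 v
  upR : ∀ g ∈ G, ∀ i < D, ∀ v, Q i g.2 v → ∃ u, (u, v) ∈ G ∧ P i g.1 u
  cnt : ∀ g ∈ G, ∀ i j, i + 1 + j = D → ∀ σ : Ty κ j,
    min {z | P i z g.1 ∧ (∀ w, (z, w) ∉ G) ∧ typ P κ j (i + 1) z = σ}.encard m
      = min {z | Q i z g.2 ∧ (∀ w, (w, z) ∉ G) ∧ typ Q κ j (i + 1) z = σ}.encard m

section sys

variable {V W : Type} {P : ℕ → V → V → Prop} {Q : ℕ → W → W → Prop} {e : C → V} {f : C → W}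
  {κ D m : ℕ} {F : Set C} {G : Set (V × W)}

lemma Sys.symm (h : Sys P Q e f κ D F m G) : Sys Q P f e κ D F m (Prod.swap ⁻¹' G) where
  fin := h.fin.preimage (Prod.swap_injective.injOn)
  inj := fun g hg k hk => (h.inj _ hg _ hk).symm
  base := fun c hc => h.base c hc
  upL := fun g hg i hi u hu => by
    obtain ⟨v, hv, hv2⟩ := h.upR _ hg i hi u hu
    exact ⟨v, hv, hv2⟩
  upR := fun g hg i hi u hu => by
    obtain ⟨v, hv, hv2⟩ := h.upL _ hg i hi u hu
    exact ⟨v, hv, hv2⟩
  cnt := fun g hg i j hij σ => (h.cnt _ hg i j hij σ).symm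

lemma Sys.mono {m' : ℕ} (h : Sys P Q e f κ D F m G) (hm : m' ≤ m) : Sys P Q e f κ D F m' G where
  fin := h.fin
  inj := h.inj
  base := h.base
  upL := h.upL
  upR := h.upR
  cnt := fun g hg i j hij σ => eqv_mono hm (h.cnt g hg i j hij σ)

lemma Forest.irrefl {V : Type} {P : ℕ → V → V → Prop} (h : Forest P) {i : ℕ} {x : V}
    (hx : P i x x) : False := by
  have := h.lev i i x x x hx hx
  omega

lemma Sys.add (hP : Forest P) (hQ : Forest Q) (hm : m ≤ κ) (h : Sys P Q e f κ D F (m + 1) G)
    (x : V) (x' : W)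
    (hx : ∀ w, (x, w) ∉ G) (hx' : ∀ w, (w, x') ∉ G)
    (h1 : ∀ g ∈ G, ∀ i < D, (P i x g.1 ↔ Q i x' g.2))
    (h2 : ∀ i < D, ∀ u, P i x u → ∃ v, (u, v) ∈ G)
    (h3 : ∀ i < D, ∀ v, Q i x' v → ∃ u, (u, v) ∈ G)
    (h4 : ∀ g ∈ G, ∀ i j, i + 1 + j = D → P i x g.1 →
      typ P κ j (i + 1) x = typ Q κ j (i + 1) x')
    (h5 : ∀ i j, i + 1 + j = D → ∀ σ : Ty κ j,
      min {z | P i z x ∧ typ P κ j (i + 1) z = σ}.encard κ
        = min {z | Q i z x' ∧ typ Q κ j (i + 1) z = σ}.encard κ) :
    Sys P Q e f κ D F m (insert (x, x') G) where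
  fin := h.fin.insert _
  inj := by
    rintro g (rfl | hg) k (rfl | hk)
    · simp
    · constructor
      · intro hh
        exact absurd (show (x, k.2) ∈ G by rw [show x = k.1 from hh]; exact hk) (hx _)
      · intro hh
        exact absurd (show (k.1, x') ∈ G by rw [show x' = k.2 from hh]; exact hk) (hx' _)
    · constructor
      · intro hh
        exact absurd (show (x, g.2) ∈ G by rw [show x = g.1 from hh.symm]; exact hg) (hx _)
      · intro hh
        exact absurd (show (g.1, x') ∈ G by rw [show x' = g.2 from hh.symm]; exact hg) (hx' _)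
    · exact h.inj g hg k hk
  base := fun c hc => Or.inr (h.base c hc)
  upL := by
    rintro g (rfl | hg) i hi u hu
    · obtain ⟨v, hv⟩ := h2 i hi u hu
      exact ⟨v, Or.inr hv, (h1 (u, v) hv i hi).mp hu⟩
    · obtain ⟨v, hv, hv2⟩ := h.upL g hg i hi u hu
      exact ⟨v, Or.inr hv, hv2⟩
  upR := by
    rintro g (rfl | hg) i hi v hv
    · obtain ⟨u, hu⟩ := h3 i hi v hv
      exact ⟨u, Or.inr hu, (h1 (u, v) hu i hi).mpr hv⟩
    · obtain ⟨v, hv, hv2⟩ := h.upR g hg i hi v hv
      exact ⟨v, Or.inr hv, hv2⟩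
  cnt := by
    rintro g (rfl | hg) i j hij σ
    · have e1 : {z | P i z x ∧ (∀ w, (z, w) ∉ insert (x, x') G) ∧ typ P κ j (i + 1) z = σ}
          = {z | P i z x ∧ typ P κ j (i + 1) z = σ} := by
        ext z
        constructor
        · rintro ⟨a, b, c⟩
          exact ⟨a, c⟩
        · rintro ⟨a, c⟩
          refine ⟨a, ?_, c⟩
          rintro w (hw | hw)
          · obtain rfl := congrArg Prod.fst hw
            exact hP.irrefl a
          · obtain ⟨v, hv, _⟩ := h.upL _ hw i (by omega) x a
            exact hx _ hv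
      have e2 : {z | Q i z x' ∧ (∀ w, (w, z) ∉ insert (x, x') G) ∧ typ Q κ j (i + 1) z = σ}
          = {z | Q i z x' ∧ typ Q κ j (i + 1) z = σ} := by
        ext z
        constructor
        · rintro ⟨a, b, c⟩
          exact ⟨a, c⟩
        · rintro ⟨a, c⟩
          refine ⟨a, ?_, c⟩
          rintro w (hw | hw)
          · obtain rfl := congrArg Prod.snd hw
            exact hQ.irrefl a
          · obtain ⟨v, hv, _⟩ := h.upR _ hw i (by omega) x' a
            exact hx' _ hv
      change min (Set.encard {z | P i z x ∧ (∀ w, (z, w) ∉ insert (x, x') G) ∧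
        typ P κ j (i + 1) z = σ}) (m : ℕ∞) = min (Set.encard {z | Q i z x' ∧
          (∀ w, (w, z) ∉ insert (x, x') G) ∧ typ Q κ j (i + 1) z = σ}) (m : ℕ∞)
      rw [e1, e2]
      exact eqv_mono hm (h5 i j hij σ)
    · have e1 : {z | P i z g.1 ∧ (∀ w, (z, w) ∉ insert (x, x') G) ∧ typ P κ j (i + 1) z = σ}
          = {z | P i z g.1 ∧ (∀ w, (z, w) ∉ G) ∧ typ P κ j (i + 1) z = σ} \ {x} := by
        ext z
        constructor
        · rintro ⟨a, b, c⟩
          refine ⟨⟨a, fun w hw => b w (Or.inr hw), c⟩, ?_⟩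
          rintro rfl
          exact b x' (Or.inl rfl)
        · rintro ⟨⟨a, b, c⟩, d⟩
          refine ⟨a, ?_, c⟩
          rintro w (hw | hw)
          · exact d (congrArg Prod.fst hw)
          · exact b w hw
      have e2 : {z | Q i z g.2 ∧ (∀ w, (w, z) ∉ insert (x, x') G) ∧ typ Q κ j (i + 1) z = σ}
          = {z | Q i z g.2 ∧ (∀ w, (w, z) ∉ G) ∧ typ Q κ j (i + 1) z = σ} \ {x'} := by
        ext z
        constructor
        · rintro ⟨a, b, c⟩
          refine ⟨⟨a, fun w hw => b w (Or.inr hw), c⟩, ?_⟩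
          rintro rfl
          exact b x (Or.inl rfl)
        · rintro ⟨⟨a, b, c⟩, d⟩
          refine ⟨a, ?_, c⟩
          rintro w (hw | hw)
          · exact d (congrArg Prod.snd hw)
          · exact b w hw
      rw [e1, e2]
      have hc := h.cnt g hg i j hij σ
      by_cases hh : P i x g.1 ∧ typ P κ j (i + 1) x = σ
      · apply eqv_diff hc
        · exact ⟨hh.1, hx, hh.2⟩
        · refine ⟨(h1 g hg i (by omega)).mp hh.1, hx', ?_⟩
          rw [← h4 g hg i j hij hh.1]
          exact hh.2
      · have hh' : ¬ (Q i x' g.2 ∧ typ Q κ j (i + 1) x' = σ) := by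
          rintro ⟨a, b⟩
          have a' := (h1 g hg i (by omega)).mpr a
          exact hh ⟨a', by rw [h4 g hg i j hij a']; exact b⟩
        rw [Set.sdiff_singleton_eq_self, Set.sdiff_singleton_eq_self]
        · exact eqv_mono (Nat.le_succ m) hc
        · rintro ⟨a, b, c⟩
          exact hh' ⟨a, c⟩
        · rintro ⟨a, b, c⟩
          exact hh ⟨a, c⟩

lemma Sys.child (hP : Forest P) (hQ : Forest Q) (hm : m ≤ κ) (h : Sys P Q e f κ D F (m + 1) G)
    {x u : V} {u' : W} {i : ℕ} (hi : i < D) (hu : (u, u') ∈ G) (hxu : P i x u)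
    (hx : ∀ w, (x, w) ∉ G) :
    ∃ x', Sys P Q e f κ D F m (insert (x, x') G) := by
  obtain ⟨j, hj⟩ : ∃ j, i + 1 + j = D := ⟨D - i - 1, by omega⟩
  obtain ⟨x', hx1, hx2, hx3⟩ := eqv_nonempty (h.cnt _ hu i j hj (typ P κ j (i + 1) x))
    ⟨x, hxu, hx, rfl⟩
  refine ⟨x', h.add hP hQ hm x x' hx hx2 ?_ ?_ ?_ ?_ ?_⟩
  · intro g hg i' hi'
    constructor
    · intro hh
      obtain ⟨rfl, h3⟩ := hP.par _ _ _ _ _ hxu hh
      rw [← (h.inj _ hu _ hg).mp h3]
      exact hx1
    · intro hh
      obtain ⟨rfl, h3⟩ := hQ.par _ _ _ _ _ hx1 hh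
      rw [← (h.inj _ hu _ hg).mpr h3]
      exact hxu
  · intro i' hi' v hv
    obtain ⟨rfl, rfl⟩ := hP.par _ _ _ _ _ hxu hv
    exact ⟨_, hu⟩
  · intro i' hi' v hv
    obtain ⟨rfl, rfl⟩ := hQ.par _ _ _ _ _ hx1 hv
    exact ⟨_, hu⟩
  · intro g hg i' j' hij hh
    obtain ⟨rfl, _⟩ := hP.par _ _ _ _ _ hxu hh
    obtain rfl : j' = j := by omega
    exact hx3.symm
  · intro i' j' hij σ
    by_cases hi' : i' = i + 1
    · subst hi'
      obtain rfl : j = j' + 1 := by omega
      exact (tr_eq_iff _ _ _).mp (congrFun hx3.symm σ)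
    · have e1 : {z | P i' z x ∧ typ P κ j' (i' + 1) z = σ} = ∅ := by
        rw [Set.eq_empty_iff_forall_notMem]
        rintro z ⟨a, b⟩
        exact hi' (hP.lev _ _ _ _ _ hxu a)
      have e2 : {z | Q i' z x' ∧ typ Q κ j' (i' + 1) z = σ} = ∅ := by
        rw [Set.eq_empty_iff_forall_notMem]
        rintro z ⟨a, b⟩
        exact hi' (hQ.lev _ _ _ _ _ hx1 a)
      rw [e1, e2, Set.encard_empty, Set.encard_empty]

lemma Sys.root (hP : Forest P) (hQ : Mod Q f) (hm : m ≤ κ) (h : Sys P Q e f κ D F (m + 1) G)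
    {x : V} (hr : ∀ i < D, ∀ u, ¬ P i x u) (hx : ∀ w, (x, w) ∉ G) :
    ∃ x', Sys P Q e f κ D F m (insert (x, x') G) := by
  obtain ⟨i0, hi0, hi0'⟩ : ∃ i0, i0 ≤ D ∧ ∀ i < D, ∀ z, P i z x → i = i0 := by
    by_cases hh : ∃ i < D, ∃ z, P i z x
    · obtain ⟨i, hi, z, hz⟩ := hh
      exact ⟨i, hi.le, fun i' _ z' hz' => hP.chi _ _ _ _ _ hz' hz⟩
    · push Not at hh
      exact ⟨0, Nat.zero_le _, fun i hi z hz => absurd hz (hh i hi z)⟩
  obtain ⟨j0, hj0⟩ : ∃ j, i0 + j = D := ⟨D - i0, by omega⟩
  have hfin : (f ⁻¹' (Prod.snd '' G)).Finite := (h.fin.image _).preimage hQ.inj.injOn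
  obtain ⟨c, hc, hc1, hc2, hc3⟩ := supply κ j0 i0 (typ P κ j0 i0 x) _ hfin
  have hty : ∀ j i c, typ Q κ j i (f c) = typ cP κ j i c := by
    apply typ_embed cP Q κ f hQ.inj
    intro i x z
    constructor
    · intro hz
      obtain ⟨w, rfl⟩ := hQ.down _ _ _ hz
      exact ⟨w, rfl, (hQ.iff _ _ _).mp hz⟩
    · rintro ⟨w, rfl, hw⟩
      exact (hQ.iff _ _ _).mpr hw
  have hup : ∀ i v, ¬ Q i (f c) v := by
    intro i v hv
    obtain ⟨w, rfl⟩ := hQ.up _ _ _ hv
    exact hc1 _ _ ((hQ.iff _ _ _).mp hv)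
  have hdn : ∀ i z, Q i z (f c) → i = i0 := by
    intro i z hz
    obtain ⟨w, rfl⟩ := hQ.down _ _ _ hz
    exact hc2 _ _ ((hQ.iff _ _ _).mp hz)
  refine ⟨f c, h.add hP hQ.forest hm x (f c) hx ?_ ?_ ?_ ?_ ?_ ?_⟩
  · intro w hw
    exact hc ⟨_, hw, rfl⟩
  · intro g hg i hi
    exact ⟨fun hh => absurd hh (hr i hi _), fun hh => absurd hh (hup i _)⟩
  · intro i hi u hu
    exact absurd hu (hr i hi _)
  · intro i hi u hu
    exact absurd hu (hup i _)
  · intro g hg i j hij hh
    exact absurd hh (hr i (by omega) _)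
  · intro i j hij σ
    by_cases hi : i = i0
    · subst hi
      obtain rfl : j0 = j + 1 := by omega
      have hx3 : typ P κ (j + 1) i x = typ Q κ (j + 1) i (f c) := by
        rw [hty, hc3]
      exact (tr_eq_iff _ _ _).mp (congrFun hx3 σ)
    · have e1 : {z | P i z x ∧ typ P κ j (i + 1) z = σ} = ∅ := by
        rw [Set.eq_empty_iff_forall_notMem]
        rintro z ⟨a, b⟩
        exact hi (hi0' i (by omega) z a)
      have e2 : {z | Q i z (f c) ∧ typ Q κ j (i + 1) z = σ} = ∅ := by
        rw [Set.eq_empty_iff_forall_notMem]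
        rintro z ⟨a, b⟩
        exact hi (hdn _ _ a)
      rw [e1, e2, Set.encard_empty, Set.encard_empty]

lemma Sys.extL (hP : Forest P) (hQ : Mod Q f) : ∀ (r m : ℕ) (x : V) (G : Set (V × W)),
    (∀ i < D, ∀ u, P i x u → i < r) → m + r ≤ κ → Sys P Q e f κ D F (m + r + 1) G →
    ∃ G', G ⊆ G' ∧ (∃ x', (x, x') ∈ G') ∧ Sys P Q e f κ D F m G' := by
  intro r
  induction r with
  | zero =>
    intro m x G hr hm h
    by_cases hx : ∃ w, (x, w) ∈ G
    · exact ⟨G, subset_rfl, hx, h.mono (by omega)⟩
    · push Not at hx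
      obtain ⟨x', h'⟩ := h.root hP hQ (by omega) (fun i hi u hu => absurd (hr i hi u hu)
        (Nat.not_lt_zero _)) hx
      exact ⟨_, Set.subset_insert _ _, ⟨x', Or.inl rfl⟩, h'.mono (by omega)⟩
  | succ r ih =>
    intro m x G hr hm h
    by_cases hx : ∃ w, (x, w) ∈ G
    · exact ⟨G, subset_rfl, hx, h.mono (by omega)⟩
    by_cases hu : ∃ i < D, ∃ u, P i x u
    · obtain ⟨i, hi, u, hu⟩ := hu
      obtain ⟨G1, hG1, ⟨u', hu'⟩, h1⟩ := ih (m + 1) u G (by
        intro i' hi' u1 hu1
        have := hP.lev _ _ _ _ _ hu1 hu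
        have := hr i hi u hu
        omega) (by omega) (h.mono (by omega))
      by_cases hx1 : ∃ w, (x, w) ∈ G1
      · exact ⟨G1, hG1, hx1, h1.mono (by omega)⟩
      · push Not at hx1
        obtain ⟨x', h'⟩ := h1.child hP hQ.forest (by omega) hi hu' hu hx1
        exact ⟨_, hG1.trans (Set.subset_insert _ _), ⟨x', Or.inl rfl⟩, h'⟩
    · push Not at hu hx
      obtain ⟨x', h'⟩ := (h.mono (show m + 1 ≤ m + (r + 1) + 1 by omega)).root hP hQ
        (by omega) hu hx
      exact ⟨_, Set.subset_insert _ _, ⟨x', Or.inl rfl⟩, h'⟩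

lemma Sys.ext (hP : Mod P e) (hQ : Mod Q f) (hm : m + D ≤ κ)
    (h : Sys P Q e f κ D F (m + (D + 1)) G) (x : V) :
    ∃ G', G ⊆ G' ∧ (∃ x', (x, x') ∈ G') ∧ Sys P Q e f κ D F m G' :=
  Sys.extL hP.forest hQ D m x G (fun _ hi _ _ => hi) hm h

lemma Sys.ext' (hP : Mod P e) (hQ : Mod Q f) (hm : m + D ≤ κ)
    (h : Sys P Q e f κ D F (m + (D + 1)) G) (x' : W) :
    ∃ G', G ⊆ G' ∧ (∃ x, (x, x') ∈ G') ∧ Sys P Q e f κ D F m G' := by
  obtain ⟨G', h1, ⟨x, h2⟩, h3⟩ := h.symm.ext hQ hP hm x'
  refine ⟨Prod.swap ⁻¹' G', ?_, ⟨x, h2⟩, h3.symm⟩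
  intro g hg
  exact h1 (show Prod.swap (Prod.swap g) ∈ G by rw [Prod.swap_swap]; exact hg)

end sys

/-! ### The language -/

open FirstOrder FirstOrder.Language

/-- The relation symbols: `P i` binary, for every level `i`, and the names `Q c` of the elements
of `C`, unary. -/
inductive Rels : ℕ → Type
  | P (i : ℕ) : Rels 2
  | Q (c : C) : Rels 1

/-- The language. -/
def L : FirstOrder.Language.{0, 0} := ⟨fun _ => Empty, Rels⟩

/-- The relation symbol of parenthood at level `i`. -/
abbrev sP (i : ℕ) : L.Relations 2 := Rels.P i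

/-- The name of the element `c`. -/
abbrev sQ (c : C) : L.Relations 1 := Rels.Q c

/-- The structure given by the relations `P` and the elements `e c`. -/
@[instance_reducible] def str {V : Type} (P : ℕ → V → V → Prop) (e : C → V) : L.Structure V where
  funMap := fun f => Empty.elim f
  RelMap := fun {_} r xs => match r, xs with
    | Rels.P i, xs => P i (xs 0) (xs 1)
    | Rels.Q c, xs => xs 0 = e c

/-- The parenthood relations of a structure. -/
abbrev rP (V : Type) [L.Structure V] (i : ℕ) (x y : V) : Prop :=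
  Structure.RelMap (sP i) ![x, y]

/-- A structure which contains a copy of `C` as a union of components. -/
structure Good (V : Type) [L.Structure V] (e : C → V) : Prop where
  mod : Mod (rP V) e
  nam : ∀ c x, Structure.RelMap (sQ c) ![x] ↔ x = e c

lemma term_var {α : Type} {n : ℕ} (t : L.Term (α ⊕ Fin n)) : ∃ k, t = Term.var k := by
  cases t with
  | var k => exact ⟨k, rfl⟩
  | func f ts => exact Empty.elim f

section ef

variable {V W : Type} [L.Structure V] [L.Structure W] {e : C → V} {f : C → W}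

lemma relMap_two {i : ℕ} (xs : Fin 2 → V) : Structure.RelMap (sP i) xs ↔ rP V i (xs 0) (xs 1) := by
  have : xs = ![xs 0, xs 1] := by
    funext k
    fin_cases k <;> rfl
  rw [rP, ← this]

lemma relMap_one {c : C} (xs : Fin 1 → V) :
    Structure.RelMap (sQ c) xs ↔ Structure.RelMap (sQ c) ![xs 0] := by
  have : xs = ![xs 0] := by
    funext k
    fin_cases k; rfl
  rw [← this]

lemma ef_formula (hV : Good V e) (hW : Good W f) : ∀ {n : ℕ} (φ : L.BoundedFormula Empty n),
    ∃ (D0 : ℕ) (F0 : Set C) (q : ℕ), F0.Finite ∧ ∀ (D κ m : ℕ) (F : Set C) (G : Set (V × W)),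
      D0 ≤ D → F0 ⊆ F → q * (D + 1) ≤ m → m ≤ κ → Sys (rP V) (rP W) e f κ D F m G →
      ∀ (xs : Fin n → V) (ys : Fin n → W), (∀ k, (xs k, ys k) ∈ G) →
      (φ.Realize default xs ↔ φ.Realize default ys) := by
  intro n φ
  induction φ with
  | falsum => exact ⟨0, ∅, 0, Set.finite_empty, fun _ _ _ _ _ _ _ _ _ _ _ _ _ => Iff.rfl⟩
  | equal t1 t2 =>
    refine ⟨0, ∅, 0, Set.finite_empty, ?_⟩
    intro D κ m F G _ _ _ _ h xs ys hk
    obtain ⟨k1, rfl⟩ := term_var t1
    obtain ⟨k2, rfl⟩ := term_var t2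
    rcases k1 with a | k1
    · exact a.elim
    rcases k2 with a | k2
    · exact a.elim
    exact h.inj _ (hk k1) _ (hk k2)
  | rel R ts =>
    cases R with
    | P i =>
      refine ⟨i + 1, ∅, 0, Set.finite_empty, ?_⟩
      intro D κ m F G hD _ _ _ h xs ys hk
      obtain ⟨k1, h1⟩ := term_var (ts 0)
      obtain ⟨k2, h2⟩ := term_var (ts 1)
      rcases k1 with a | k1
      · exact a.elim
      rcases k2 with a | k2
      · exact a.elim
      change Structure.RelMap (sP i) _ ↔ Structure.RelMap (sP i) _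
      rw [relMap_two, relMap_two]
      simp only [h1, h2, Term.realize_var, Sum.elim_inr]
      constructor
      · intro hh
        obtain ⟨v, hv, hv2⟩ := h.upL _ (hk k1) i (by omega) _ hh
        obtain rfl : v = ys k2 := (h.inj _ hv _ (hk k2)).mp rfl
        exact hv2
      · intro hh
        obtain ⟨v, hv, hv2⟩ := h.upR _ (hk k1) i (by omega) _ hh
        obtain rfl : v = xs k2 := (h.inj _ hv _ (hk k2)).mpr rfl
        exact hv2
    | Q c =>
      refine ⟨0, {c}, 0, Set.finite_singleton _, ?_⟩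
      intro D κ m F G _ hF _ _ h xs ys hk
      obtain ⟨k1, h1⟩ := term_var (ts 0)
      rcases k1 with a | k1
      · exact a.elim
      change Structure.RelMap (sQ c) _ ↔ Structure.RelMap (sQ c) _
      rw [relMap_one (V := V), hV.nam, relMap_one (V := W), hW.nam]
      simp only [h1, Term.realize_var, Sum.elim_inr]
      exact h.inj _ (hk k1) _ (h.base c (hF rfl))
  | imp φ ψ ih1 ih2 =>
    obtain ⟨D1, F1, q1, hf1, h1⟩ := ih1
    obtain ⟨D2, F2, q2, hf2, h2⟩ := ih2
    refine ⟨max D1 D2, F1 ∪ F2, max q1 q2, hf1.union hf2, ?_⟩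
    intro D κ m F G hD hF hm hκ h xs ys hk
    have e1 := h1 D κ m F G ((le_max_left _ _).trans hD) (Set.subset_union_left.trans hF)
      ((Nat.mul_le_mul_right _ (le_max_left _ _)).trans hm) hκ h xs ys hk
    have e2 := h2 D κ m F G ((le_max_right _ _).trans hD) (Set.subset_union_right.trans hF)
      ((Nat.mul_le_mul_right _ (le_max_right _ _)).trans hm) hκ h xs ys hk
    rw [BoundedFormula.realize_imp, BoundedFormula.realize_imp, e1, e2]
  | all φ ih =>
    obtain ⟨D1, F1, q1, hf1, h1⟩ := ih
    refine ⟨D1, F1, q1 + 1, hf1, ?_⟩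
    intro D κ m F G hD hF hm hκ h xs ys hk
    rw [add_mul, one_mul] at hm
    obtain ⟨m', rfl⟩ : ∃ m', m = m' + (D + 1) := ⟨m - (D + 1), by omega⟩
    rw [BoundedFormula.realize_all, BoundedFormula.realize_all]
    constructor
    · intro hh b
      obtain ⟨G', hG', ⟨a, ha⟩, h'⟩ := h.ext' hV.mod hW.mod (by omega) b
      refine (h1 D κ m' F G' hD hF (by omega) (by omega) h' (Fin.snoc xs a) (Fin.snoc ys b)
        ?_).mp (hh a)
      intro k
      refine Fin.lastCases ?_ (fun k => ?_) k
      · simpa using ha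
      · simpa using hG' (hk k)
    · intro hh a
      obtain ⟨G', hG', ⟨b, hb⟩, h'⟩ := h.ext hV.mod hW.mod (by omega) a
      refine (h1 D κ m' F G' hD hF (by omega) (by omega) h' (Fin.snoc xs a) (Fin.snoc ys b)
        ?_).mpr (hh b)
      intro k
      refine Fin.lastCases ?_ (fun k => ?_) k
      · simpa using hb
      · simpa using hG' (hk k)

omit [L.Structure V] [L.Structure W] in
lemma sys_init {P : ℕ → V → V → Prop} {Q : ℕ → W → W → Prop} (hP : Mod P e) (hQ : Mod Q f)
    (κ D m : ℕ) (F0 : Set C) (hF0 : F0.Finite) : ∃ F, F0 ⊆ F ∧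
    Sys P Q e f κ D F m ((fun c => (e c, f c)) '' F) := by
  have hup : ∀ i, ∀ x ∈ ⋃ c ∈ F0, block c, ∀ y, cP i x y → y ∈ ⋃ c ∈ F0, block c := by
    intro i x hx y hy
    simp only [Set.mem_iUnion] at hx ⊢
    obtain ⟨c, hc, hx⟩ := hx
    exact ⟨c, hc, block_up hx hy⟩
  have hdown : ∀ i, ∀ x ∈ ⋃ c ∈ F0, block c, ∀ y, cP i y x → y ∈ ⋃ c ∈ F0, block c := by
    intro i x hx y hy
    simp only [Set.mem_iUnion] at hx ⊢
    obtain ⟨c, hc, hx⟩ := hx
    exact ⟨c, hc, block_down hx hy⟩
  refine ⟨⋃ c ∈ F0, block c, fun c hc => ?_, ?_⟩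
  · simp only [Set.mem_iUnion]
    exact ⟨c, hc, mem_block c⟩
  have hfin : (⋃ c ∈ F0, block c).Finite := hF0.biUnion (fun c _ => block_finite c)
  generalize (⋃ c ∈ F0, block c) = F at *
  refine ⟨hfin.image _, ?_, fun c hc => ⟨c, hc, rfl⟩, ?_, ?_, ?_⟩
  · rintro _ ⟨c, hc, rfl⟩ _ ⟨c', hc', rfl⟩
    exact ⟨fun h => congrArg f (hP.inj h), fun h => congrArg e (hQ.inj h)⟩
  · rintro _ ⟨c, hc, rfl⟩ i hi u hu
    obtain ⟨c', rfl⟩ := hP.up _ _ _ hu
    have h1 := (hP.iff _ _ _).mp hu
    exact ⟨f c', ⟨c', hup _ _ hc _ h1, rfl⟩, (hQ.iff _ _ _).mpr h1⟩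
  · rintro _ ⟨c, hc, rfl⟩ i hi u hu
    obtain ⟨c', rfl⟩ := hQ.up _ _ _ hu
    have h1 := (hQ.iff _ _ _).mp hu
    exact ⟨e c', ⟨c', hup _ _ hc _ h1, rfl⟩, (hP.iff _ _ _).mpr h1⟩
  · rintro _ ⟨c, hc, rfl⟩ i j hij σ
    have e1 : {z | P i z (e c) ∧ (∀ w, (z, w) ∉ (fun c => (e c, f c)) '' F) ∧
        typ P κ j (i + 1) z = σ} = ∅ := by
      rw [Set.eq_empty_iff_forall_notMem]
      rintro z ⟨a, b, _⟩
      obtain ⟨c', rfl⟩ := hP.down _ _ _ a
      exact b _ ⟨c', hdown _ _ hc _ ((hP.iff _ _ _).mp a), rfl⟩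
    have e2 : {z | Q i z (f c) ∧ (∀ w, (w, z) ∉ (fun c => (e c, f c)) '' F) ∧
        typ Q κ j (i + 1) z = σ} = ∅ := by
      rw [Set.eq_empty_iff_forall_notMem]
      rintro z ⟨a, b, _⟩
      obtain ⟨c', rfl⟩ := hQ.down _ _ _ a
      exact b _ ⟨c', hdown _ _ hc _ ((hQ.iff _ _ _).mp a), rfl⟩
    change min (Set.encard {z | P i z (e c) ∧ (∀ w, (z, w) ∉ (fun c => (e c, f c)) '' F) ∧
        typ P κ j (i + 1) z = σ}) (m : ℕ∞) = min (Set.encard {z | Q i z (f c) ∧
        (∀ w, (w, z) ∉ (fun c => (e c, f c)) '' F) ∧ typ Q κ j (i + 1) z = σ}) (m : ℕ∞)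
    rw [e1, e2, Set.encard_empty, Set.encard_empty]

lemma good_equiv (hV : Good V e) (hW : Good W f) (φ : L.Sentence) : V ⊨ φ ↔ W ⊨ φ := by
  obtain ⟨D0, F0, q, hF0, h⟩ := ef_formula hV hW φ
  obtain ⟨F, hF, hS⟩ := sys_init hV.mod hW.mod (q * (D0 + 1)) D0 (q * (D0 + 1)) F0 hF0
  have h1 := h D0 (q * (D0 + 1)) (q * (D0 + 1)) F _ le_rfl hF le_rfl le_rfl hS default default
    (fun k => k.elim0)
  exact h1

end ef

/-! ### Prefix classes of formulas -/

/-- `IsPref true n` are the `∀ₙ`-formulas, `IsPref false n` are the `∃ₙ`-formulas. -/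
inductive IsPref {L' : FirstOrder.Language.{0, 0}} {α : Type} :
    Bool → ℕ → ∀ {m : ℕ}, L'.BoundedFormula α m → Prop
  | qf {b : Bool} {m : ℕ} {φ : L'.BoundedFormula α m} : φ.IsQF → IsPref b 0 φ
  | switch {b : Bool} {n m : ℕ} {φ : L'.BoundedFormula α m} :
      IsPref (!b) n φ → IsPref b (n + 1) φ
  | all {n m : ℕ} {φ : L'.BoundedFormula α (m + 1)} :
      IsPref true (n + 1) φ → IsPref true (n + 1) φ.all
  | ex {n m : ℕ} {φ : L'.BoundedFormula α (m + 1)} :
      IsPref false (n + 1) φ → IsPref false (n + 1) φ.ex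

lemma IsPref.of_qf {α : Type} {m : ℕ} {φ : L.BoundedFormula α m} (h : φ.IsQF) :
    ∀ (n : ℕ) (b : Bool), IsPref b n φ := by
  intro n
  induction n with
  | zero => exact fun b => IsPref.qf h
  | succ n ih => exact fun b => IsPref.switch (ih _)

lemma IsPref.alls {α : Type} {n : ℕ} : ∀ {m : ℕ} {φ : L.BoundedFormula α m},
    IsPref true (n + 1) φ → IsPref true (n + 1) φ.alls := by
  intro m
  induction m with
  | zero => exact fun h => h
  | succ m ih => exact fun h => ih (IsPref.all h)

instance instC : L.Structure C := str cP id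

lemma good_C : Good C id where
  mod :=
    { forest := cP_forest
      inj := Function.injective_id
      iff := fun _ _ _ => Iff.rfl
      up := fun _ _ y _ => ⟨y, rfl⟩
      down := fun _ x _ _ => ⟨x, rfl⟩ }
  nam := fun _ _ => Iff.rfl

section axioms

variable {N : Type} [L.Structure N]

lemma univ_transfer (hN : ∀ σ : L.Sentence, IsPref false 2 σ → C ⊨ σ → N ⊨ σ) {m : ℕ}
    (ψ : L.BoundedFormula Empty m) (hψ : ψ.IsQF) (h : ∀ xs : Fin m → C, ψ.Realize default xs)
    (xs : Fin m → N) : ψ.Realize default xs := by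
  have h1 : N ⊨ (ψ.alls : L.Sentence) := by
    apply hN
    · exact IsPref.switch (IsPref.alls (IsPref.of_qf hψ 1 true))
    · exact BoundedFormula.realize_alls.mpr h
  exact BoundedFormula.realize_alls.mp h1 xs

lemma qf2 {α : Type} {m : ℕ} (i : ℕ) (s t : L.Term (α ⊕ Fin m)) :
    ((sP i).boundedFormula₂ s t).IsQF := (BoundedFormula.IsAtomic.rel _ _).isQF

lemma qf1 {α : Type} {m : ℕ} (c : C) (s : L.Term (α ⊕ Fin m)) :
    ((sQ c).boundedFormula₁ s).IsQF := (BoundedFormula.IsAtomic.rel _ _).isQF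

lemma qfe {α : Type} {m : ℕ} (s t : L.Term (α ⊕ Fin m)) :
    (Term.bdEqual s t).IsQF := (BoundedFormula.IsAtomic.equal _ _).isQF

lemma exists_good (hN : ∀ σ : L.Sentence, IsPref false 2 σ → C ⊨ σ → N ⊨ σ) :
    ∃ e : C → N, Good N e := by
  have hex : ∀ c : C, ∃ x : N, ∀ y, Structure.RelMap (sQ c) ![y] ↔ y = x := by
    intro c
    have h1 : N ⊨ ((((((sQ c).boundedFormula₁ (&1)).imp (Term.bdEqual (&1) (&0))) ⊓
        ((Term.bdEqual (&1) (&0)).imp ((sQ c).boundedFormula₁ (&1)))).all).ex : L.Sentence) := by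
      apply hN
      · exact IsPref.ex (IsPref.switch (IsPref.all (IsPref.of_qf
          (((qf1 _ _).imp (qfe _ _)).inf ((qfe _ _).imp (qf1 _ _))) 1 true)))
      · rw [Sentence.Realize, Formula.Realize, BoundedFormula.realize_ex]
        refine ⟨c, ?_⟩
        rw [BoundedFormula.realize_all]
        intro y
        simp only [BoundedFormula.realize_inf, BoundedFormula.realize_imp,
          BoundedFormula.realize_rel₁, BoundedFormula.realize_bdEqual, Term.realize_var,
          Sum.elim_inr]
        exact ⟨fun h => h, fun h => h⟩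
    rw [Sentence.Realize, Formula.Realize, BoundedFormula.realize_ex] at h1
    obtain ⟨x, h1⟩ := h1
    refine ⟨x, fun y => ?_⟩
    have h2 := h1 y
    simp only [BoundedFormula.realize_inf, BoundedFormula.realize_imp,
          BoundedFormula.realize_rel₁, BoundedFormula.realize_bdEqual, Term.realize_var,
          Sum.elim_inr] at h2
    exact ⟨h2.1, h2.2⟩
  choose e he using hex
  have key : ∀ {m : ℕ} (ψ : L.BoundedFormula Empty m), ψ.IsQF →
      (∀ xs : Fin m → C, ψ.Realize default xs) → ∀ xs : Fin m → N, ψ.Realize default xs :=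
    fun ψ hψ h xs => univ_transfer hN ψ hψ h xs
  refine ⟨e, ⟨⟨?_, ?_, ?_⟩, ?_, ?_, ?_, ?_⟩, he⟩
  · -- par
    intro i j x y y' h1 h2
    by_cases hij : i = j
    · subst hij
      refine ⟨rfl, ?_⟩
      have := key (m := 3) (((sP i).boundedFormula₂ (&0) (&1)).imp
        (((sP i).boundedFormula₂ (&0) (&2)).imp (Term.bdEqual (&1) (&2))))
        ((qf2 _ _ _).imp ((qf2 _ _ _).imp (qfe _ _))) (by
          intro xs
          simp only [BoundedFormula.realize_imp, BoundedFormula.realize_rel₂,
            BoundedFormula.realize_bdEqual, Term.realize_var, Sum.elim_inr]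
          intro a b
          exact (cP_forest.par _ _ _ _ _ a b).2) ![x, y, y']
      simp only [BoundedFormula.realize_imp, BoundedFormula.realize_rel₂,
            BoundedFormula.realize_bdEqual, Term.realize_var, Sum.elim_inr] at this
      exact this h1 h2
    · exfalso
      have := key (m := 3) (((sP i).boundedFormula₂ (&0) (&1)).imp
        (((sP j).boundedFormula₂ (&0) (&2)).imp ⊥))
        ((qf2 _ _ _).imp ((qf2 _ _ _).imp BoundedFormula.isQF_bot)) (by
          intro xs
          simp only [BoundedFormula.realize_imp, BoundedFormula.realize_rel₂,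
            BoundedFormula.realize_bot, Term.realize_var, Sum.elim_inr]
          intro a b
          exact hij (cP_forest.par _ _ _ _ _ a b).1) ![x, y, y']
      simp only [BoundedFormula.realize_imp, BoundedFormula.realize_rel₂,
            BoundedFormula.realize_bot, Term.realize_var, Sum.elim_inr] at this
      exact this h1 h2
  · -- lev
    intro i j x y z h1 h2
    by_contra hij
    have := key (m := 3) (((sP i).boundedFormula₂ (&0) (&1)).imp
        (((sP j).boundedFormula₂ (&2) (&0)).imp ⊥))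
        ((qf2 _ _ _).imp ((qf2 _ _ _).imp BoundedFormula.isQF_bot)) (by
          intro xs
          simp only [BoundedFormula.realize_imp, BoundedFormula.realize_rel₂,
            BoundedFormula.realize_bot, Term.realize_var, Sum.elim_inr]
          intro a b
          exact hij (cP_forest.lev _ _ _ _ _ a b)) ![x, y, z]
    simp only [BoundedFormula.realize_imp, BoundedFormula.realize_rel₂,
            BoundedFormula.realize_bot, Term.realize_var, Sum.elim_inr] at this
    exact this h1 h2
  · -- chi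
    intro i j x z z' h1 h2
    by_contra hij
    have := key (m := 3) (((sP i).boundedFormula₂ (&1) (&0)).imp
        (((sP j).boundedFormula₂ (&2) (&0)).imp ⊥))
        ((qf2 _ _ _).imp ((qf2 _ _ _).imp BoundedFormula.isQF_bot)) (by
          intro xs
          simp only [BoundedFormula.realize_imp, BoundedFormula.realize_rel₂,
            BoundedFormula.realize_bot, Term.realize_var, Sum.elim_inr]
          intro a b
          exact hij (cP_forest.chi _ _ _ _ _ a b)) ![x, z, z']
    simp only [BoundedFormula.realize_imp, BoundedFormula.realize_rel₂,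
            BoundedFormula.realize_bot, Term.realize_var, Sum.elim_inr] at this
    exact this h1 h2
  · -- inj
    intro x y hxy
    by_contra hne
    have := key (m := 1) (((sQ x).boundedFormula₁ (&0)).imp
        (((sQ y).boundedFormula₁ (&0)).imp ⊥))
        ((qf1 _ _).imp ((qf1 _ _).imp BoundedFormula.isQF_bot)) (by
          intro xs
          simp only [BoundedFormula.realize_imp, BoundedFormula.realize_rel₁,
            BoundedFormula.realize_bot, Term.realize_var, Sum.elim_inr]
          intro a b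
          exact hne (((good_C.nam _ _).mp a).symm.trans ((good_C.nam _ _).mp b))) ![e x]
    simp only [BoundedFormula.realize_imp, BoundedFormula.realize_rel₁,
            BoundedFormula.realize_bot, Term.realize_var, Sum.elim_inr] at this
    exact this ((he _ _).mpr rfl) ((he _ _).mpr hxy)
  · -- iff
    intro i x y
    by_cases hc : cP i x y
    · have := key (m := 2) (((sQ x).boundedFormula₁ (&0)).imp
        (((sQ y).boundedFormula₁ (&1)).imp ((sP i).boundedFormula₂ (&0) (&1))))
        ((qf1 _ _).imp ((qf1 _ _).imp (qf2 _ _ _))) (by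
          intro xs
          simp only [BoundedFormula.realize_imp, BoundedFormula.realize_rel₁,
            BoundedFormula.realize_rel₂, Term.realize_var, Sum.elim_inr]
          intro a b
          rw [good_C.nam] at a b
          rw [a, b]
          exact hc) ![e x, e y]
      simp only [BoundedFormula.realize_imp, BoundedFormula.realize_rel₁,
            BoundedFormula.realize_rel₂, Term.realize_var, Sum.elim_inr] at this
      exact iff_of_true (this ((he _ _).mpr rfl) ((he _ _).mpr rfl)) hc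
    · have := key (m := 2) (((sQ x).boundedFormula₁ (&0)).imp
        (((sQ y).boundedFormula₁ (&1)).imp (((sP i).boundedFormula₂ (&0) (&1)).imp ⊥)))
        ((qf1 _ _).imp ((qf1 _ _).imp ((qf2 _ _ _).imp BoundedFormula.isQF_bot))) (by
          intro xs
          simp only [BoundedFormula.realize_imp, BoundedFormula.realize_rel₁,
            BoundedFormula.realize_rel₂, Term.realize_var, Sum.elim_inr,
            BoundedFormula.realize_bot]
          intro a b
          rw [good_C.nam] at a b
          rw [a, b]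
          exact hc) ![e x, e y]
      simp only [BoundedFormula.realize_imp, BoundedFormula.realize_rel₁,
            BoundedFormula.realize_rel₂, Term.realize_var, Sum.elim_inr,
            BoundedFormula.realize_bot] at this
      exact iff_of_false (this ((he _ _).mpr rfl) ((he _ _).mpr rfl)) hc
  · -- up
    intro i x y h1
    have := key (m := 2) (((sQ x).boundedFormula₁ (&0)).imp
        (((sP i).boundedFormula₂ (&0) (&1)).imp ((List.ofFn (fun a : Fin x.1 =>
          (sQ (⟨x.1, x.2.1, a⟩ : C)).boundedFormula₁ (α := Empty) (n := 2) (&1))).foldr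
            (· ⊔ ·) ⊥)))
        ((qf1 _ _).imp ((qf2 _ _ _).imp (by
          generalize hl : List.ofFn (fun a : Fin x.1 =>
            (sQ (⟨x.1, x.2.1, a⟩ : C)).boundedFormula₁ (α := Empty) (n := 2) (&1)) = l
          have hl2 : ∀ ψ ∈ l, ψ.IsQF := by
            subst hl
            intro ψ hψ
            rw [List.mem_ofFn] at hψ
            obtain ⟨a, rfl⟩ := hψ
            exact qf1 _ _
          clear hl
          induction l with
          | nil => exact BoundedFormula.isQF_bot
          | cons a l ih =>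
            exact (hl2 a (by simp)).sup (ih (fun ψ hψ => hl2 ψ (by simp [hψ])))))) (by
          intro xs
          simp only [BoundedFormula.realize_imp, BoundedFormula.realize_rel₁,
            BoundedFormula.realize_rel₂, Term.realize_var, Sum.elim_inr,
            BoundedFormula.realize_foldr_sup, List.mem_ofFn]
          intro a b
          rw [good_C.nam] at a
          rw [a] at b
          obtain ⟨k, hk⟩ := block_up (mem_block x) (show cP i x (xs 1) from b)
          exact ⟨_, ⟨k, rfl⟩, by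
            simp only [BoundedFormula.realize_rel₁, Term.realize_var, Sum.elim_inr]
            exact hk⟩) ![e x, y]
    simp only [BoundedFormula.realize_imp, BoundedFormula.realize_rel₁,
            BoundedFormula.realize_rel₂, Term.realize_var, Sum.elim_inr,
            BoundedFormula.realize_foldr_sup, List.mem_ofFn] at this
    obtain ⟨_, ⟨k, rfl⟩, hk⟩ := this ((he _ _).mpr rfl) h1
    simp only [BoundedFormula.realize_rel₁, Term.realize_var, Sum.elim_inr] at hk
    exact ⟨_, ((he _ _).mp hk).symm⟩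
  · -- down
    intro i y x h1
    have := key (m := 2) (((sQ x).boundedFormula₁ (&0)).imp
        (((sP i).boundedFormula₂ (&1) (&0)).imp ((List.ofFn (fun a : Fin x.1 =>
          (sQ (⟨x.1, x.2.1, a⟩ : C)).boundedFormula₁ (α := Empty) (n := 2) (&1))).foldr
            (· ⊔ ·) ⊥)))
        ((qf1 _ _).imp ((qf2 _ _ _).imp (by
          generalize hl : List.ofFn (fun a : Fin x.1 =>
            (sQ (⟨x.1, x.2.1, a⟩ : C)).boundedFormula₁ (α := Empty) (n := 2) (&1)) = l
          have hl2 : ∀ ψ ∈ l, ψ.IsQF := by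
            subst hl
            intro ψ hψ
            rw [List.mem_ofFn] at hψ
            obtain ⟨a, rfl⟩ := hψ
            exact qf1 _ _
          clear hl
          induction l with
          | nil => exact BoundedFormula.isQF_bot
          | cons a l ih =>
            exact (hl2 a (by simp)).sup (ih (fun ψ hψ => hl2 ψ (by simp [hψ])))))) (by
          intro xs
          simp only [BoundedFormula.realize_imp, BoundedFormula.realize_rel₁,
            BoundedFormula.realize_rel₂, Term.realize_var, Sum.elim_inr,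
            BoundedFormula.realize_foldr_sup, List.mem_ofFn]
          intro a b
          rw [good_C.nam] at a
          rw [a] at b
          obtain ⟨k, hk⟩ := block_down (mem_block x) (show cP i (xs 1) x from b)
          exact ⟨_, ⟨k, rfl⟩, by
            simp only [BoundedFormula.realize_rel₁, Term.realize_var, Sum.elim_inr]
            exact hk⟩) ![e x, y]
    simp only [BoundedFormula.realize_imp, BoundedFormula.realize_rel₁,
            BoundedFormula.realize_rel₂, Term.realize_var, Sum.elim_inr,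
            BoundedFormula.realize_foldr_sup, List.mem_ofFn] at this
    obtain ⟨_, ⟨k, rfl⟩, hk⟩ := this ((he _ _).mpr rfl) h1
    simp only [BoundedFormula.realize_rel₁, Term.realize_var, Sum.elim_inr] at hk
    exact ⟨_, ((he _ _).mp hk).symm⟩

end axioms

/-! ### The kinds of nodes and the models `NT t` -/

/-- Kinds of nodes. -/
inductive Kd
  | A (k : ℕ) : Kd
  | B (k : ℕ) : Kd
  | T : Kd
  | T' (K : ℕ) : Kd

/-- The kind of the `a`-th child of a node of a given kind. -/
def child : Kd → ℕ → Option Kd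
  | Kd.A 0, _ => some (Kd.B 0)
  | Kd.A (k + 1), a => if Even a then some (Kd.A k) else some (Kd.B k)
  | Kd.B 0, _ => none
  | Kd.B (k + 1), _ => some (Kd.A k)
  | Kd.T, a => some (Kd.A a.unpair.1)
  | Kd.T' K, a => if Even a then some (Kd.A (a / 2).unpair.1) else some (Kd.B K)

/-- The kind of a node of the tree with root of kind `t` (`none` for the isolated points). -/
def kd (t : Kd) : List ℕ → Option Kd
  | [] => some t
  | a :: l => (kd t l).bind (fun κ => child κ a)

/-- The model which consists of `C` and of a tree with root of kind `t`. -/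
def NT (_ : Kd) : Type := C ⊕ List ℕ

/-- The parenthood relations of the model `NT t`. -/
def nP (t : Kd) (i : ℕ) : C ⊕ List ℕ → C ⊕ List ℕ → Prop
  | Sum.inl x, Sum.inl y => cP i x y
  | Sum.inr x, Sum.inr y => y.length = i ∧ (∃ a, x = a :: y) ∧ kd t x ≠ none
  | _, _ => False

instance instNT (t : Kd) : L.Structure (NT t) := str (V := C ⊕ List ℕ) (nP t) Sum.inl

lemma good_NT (t : Kd) : Good (NT t) (Sum.inl : C → C ⊕ List ℕ) where
  mod :=
    { forest :=
        { par := by
            intro i j x y y' h h'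
            change nP t i x y at h
            change nP t j x y' at h'
            rcases x with x | x <;> rcases y with y | y <;> rcases y' with y' | y' <;>
              simp only [nP] at h h'
            · obtain ⟨h1, rfl⟩ := cP_forest.par _ _ _ _ _ h h'
              exact ⟨h1, rfl⟩
            · obtain ⟨h1, ⟨a, rfl⟩, _⟩ := h
              obtain ⟨h2, ⟨b, h3⟩, _⟩ := h'
              obtain ⟨_, rfl⟩ := List.cons.inj h3
              exact ⟨by omega, rfl⟩
          lev := by
            intro i j x y z h h'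
            change nP t i x y at h
            change nP t j z x at h'
            rcases x with x | x <;> rcases y with y | y <;> rcases z with z | z <;>
              simp only [nP] at h h'
            · exact cP_forest.lev _ _ _ _ _ h h'
            · obtain ⟨h1, ⟨a, rfl⟩, _⟩ := h
              obtain ⟨h2, _⟩ := h'
              rw [List.length_cons] at h2
              omega
          chi := by
            intro i j x z z' h h'
            change nP t i z x at h
            change nP t j z' x at h'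
            rcases x with x | x <;> rcases z with z | z <;> rcases z' with z' | z' <;>
              simp only [nP] at h h'
            · exact cP_forest.chi _ _ _ _ _ h h'
            · omega }
      inj := Sum.inl_injective
      iff := fun _ _ _ => Iff.rfl
      up := by
        intro i x y h
        change nP t i _ y at h
        rcases y with y | y
        · exact ⟨y, rfl⟩
        · exact h.elim
      down := by
        intro i x y h
        change nP t i x _ at h
        rcases x with x | x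
        · exact ⟨x, rfl⟩
        · exact h.elim }
  nam := fun _ _ => Iff.rfl

/-! ### Comparison of kinds -/

/-- `ok n κ κ'`: the `∃ₙ`-formulas are preserved from kind `κ` to kind `κ'`. -/
def ok (n : ℕ) (κ κ' : Kd) : Prop :=
  κ = κ' ∨ (∃ k, κ = Kd.B k ∧ κ' = Kd.A k ∧ n ≤ k + 1) ∨
    (∃ k, κ = Kd.A k ∧ κ' = Kd.B k ∧ n ≤ k) ∨
    (∃ K, κ = Kd.T' K ∧ κ' = Kd.T ∧ n ≤ K + 1) ∨ (∃ K, κ = Kd.T ∧ κ' = Kd.T' K ∧ n ≤ K + 2)

lemma ok_flip {n : ℕ} {κ κ' : Kd} (h : ok (n + 1) κ κ') : ok n κ' κ := by
  rcases h with rfl | ⟨k, rfl, rfl, h⟩ | ⟨k, rfl, rfl, h⟩ | ⟨K, rfl, rfl, h⟩ | ⟨K, rfl, rfl, h⟩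
  · exact Or.inl rfl
  · exact Or.inr (Or.inr (Or.inl ⟨k, rfl, rfl, by omega⟩))
  · exact Or.inr (Or.inl ⟨k, rfl, rfl, by omega⟩)
  · exact Or.inr (Or.inr (Or.inr (Or.inr ⟨K, rfl, rfl, by omega⟩)))
  · exact Or.inr (Or.inr (Or.inr (Or.inl ⟨K, rfl, rfl, by omega⟩)))

lemma inf_even : {a : ℕ | Even a}.Infinite := by
  apply Set.infinite_of_injective_forall_mem (f := fun n : ℕ => 2 * n)
  · intro a b h
    simpa using h
  · intro n
    exact ⟨n, by ring⟩

lemma inf_odd : {a : ℕ | ¬ Even a}.Infinite := by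
  apply Set.infinite_of_injective_forall_mem (f := fun n : ℕ => 2 * n + 1)
  · intro a b h
    simpa using h
  · intro n h
    simp [parity_simps] at h

lemma inf_child {κ l : Kd} {a : ℕ} (h : child κ a = some l) : {b | child κ b = some l}.Infinite := by
  cases κ with
  | A k =>
    cases k with
    | zero =>
      have : {b | child (Kd.A 0) b = some l} = Set.univ := by
        ext b
        simp only [Set.mem_ofPred_eq, Set.mem_univ, iff_true]
        exact h
      rw [this]
      exact Set.infinite_univ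
    | succ k =>
      by_cases ha : Even a
      · refine inf_even.mono (fun b hb => ?_)
        have hb' : Even b := hb
        simp only [child, ha, hb', if_true, Set.mem_ofPred_eq] at h ⊢
        exact h
      · refine inf_odd.mono (fun b hb => ?_)
        have hb' : ¬ Even b := hb
        simp only [child, ha, hb', if_false, Set.mem_ofPred_eq] at h ⊢
        exact h
  | B k =>
    cases k with
    | zero => simp [child] at h
    | succ k =>
      have : {b | child (Kd.B (k + 1)) b = some l} = Set.univ := by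
        ext b
        simp only [Set.mem_ofPred_eq, Set.mem_univ, iff_true]
        exact h
      rw [this]
      exact Set.infinite_univ
  | T =>
    simp only [child, Option.some.injEq] at h
    subst h
    apply Set.infinite_of_injective_forall_mem (f := fun n : ℕ => Nat.pair a.unpair.1 n)
    · intro m n hmn
      exact (Nat.pair_eq_pair.mp hmn).2
    · intro n
      simp [child]
  | T' K =>
    by_cases ha : Even a
    · simp only [child, ha, if_true, Option.some.injEq] at h
      subst h
      apply Set.infinite_of_injective_forall_mem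
        (f := fun n : ℕ => 2 * Nat.pair (a / 2).unpair.1 n)
      · intro m n hmn
        have h2 : Nat.pair (a / 2).unpair.1 m = Nat.pair (a / 2).unpair.1 n := by
          have : 2 * Nat.pair (a / 2).unpair.1 m = 2 * Nat.pair (a / 2).unpair.1 n := hmn
          omega
        exact (Nat.pair_eq_pair.mp h2).2
      · intro n
        simp [child]
    · refine inf_odd.mono (fun b hb => ?_)
      have hb' : ¬ Even b := hb
      simp only [child, ha, hb', if_false, Set.mem_ofPred_eq] at h ⊢
      exact h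

lemma child_T (k : ℕ) : child Kd.T (Nat.pair k 0) = some (Kd.A k) := by
  simp [child]

lemma child_T'_A (K k : ℕ) : child (Kd.T' K) (2 * Nat.pair k 0) = some (Kd.A k) := by
  simp [child]

lemma child_T'_B (K : ℕ) : child (Kd.T' K) 1 = some (Kd.B K) := by
  simp [child]

lemma child_A_A (k : ℕ) : child (Kd.A (k + 1)) 0 = some (Kd.A k) := by
  simp [child]

lemma child_A_B (k : ℕ) : child (Kd.A (k + 1)) 1 = some (Kd.B k) := by
  simp [child]

lemma ok_child {n : ℕ} {κ κ' l : Kd} {a : ℕ} (h : ok (n + 1) κ κ') (hl : child κ a = some l) :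
    ∃ l', {b | child κ' b = some l'}.Infinite ∧ ok (n + 1) l l' := by
  rcases h with rfl | ⟨k, rfl, rfl, h⟩ | ⟨k, rfl, rfl, h⟩ | ⟨K, rfl, rfl, h⟩ | ⟨K, rfl, rfl, h⟩
  · exact ⟨l, inf_child hl, Or.inl rfl⟩
  · cases k with
    | zero => simp [child] at hl
    | succ k =>
      simp only [child, Option.some.injEq] at hl
      subst hl
      exact ⟨_, inf_child (child_A_A k), Or.inl rfl⟩
  · cases k with
    | zero => omega
    | succ k =>
      refine ⟨Kd.A k, inf_child (a := 0) rfl, ?_⟩
      by_cases ha : Even a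
      · simp only [child, ha, if_true, Option.some.injEq] at hl
        exact Or.inl hl.symm
      · simp only [child, ha, if_false, Option.some.injEq] at hl
        exact Or.inr (Or.inl ⟨k, hl.symm, rfl, by omega⟩)
  · by_cases ha : Even a
    · simp only [child, ha, if_true, Option.some.injEq] at hl
      subst hl
      exact ⟨_, inf_child (child_T _), Or.inl rfl⟩
    · simp only [child, ha, if_false, Option.some.injEq] at hl
      subst hl
      exact ⟨_, inf_child (child_T K), Or.inr (Or.inl ⟨K, rfl, rfl, h⟩)⟩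
  · simp only [child, Option.some.injEq] at hl
    subst hl
    exact ⟨_, inf_child (child_T'_A K _), Or.inl rfl⟩

/-! ### Partial isomorphisms for the prefix classes -/

/-- Systems of partial maps for the preservation of `∃ₙ`-formulas from `NT t` to `NT s`. -/
structure TS (t s : Kd) (n : ℕ) (G : Set (List ℕ × List ℕ)) : Prop where
  fin : G.Finite
  root : (([] : List ℕ), ([] : List ℕ)) ∈ G
  inj : ∀ g ∈ G, ∀ h ∈ G, (g.1 = h.1 ↔ g.2 = h.2)
  dead : ∀ g ∈ G, (kd t g.1 = none ↔ kd s g.2 = none)
  len : ∀ g ∈ G, kd t g.1 ≠ none → g.1.length = g.2.length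
  kinds : ∀ g ∈ G, ∀ κ κ', kd t g.1 = some κ → kd s g.2 = some κ' → ok n κ κ'
  upL : ∀ g ∈ G, ∀ a y, g.1 = a :: y → kd t g.1 ≠ none → ∃ b y', g.2 = b :: y' ∧ (y, y') ∈ G
  upR : ∀ g ∈ G, ∀ b y', g.2 = b :: y' → kd s g.2 ≠ none → ∃ a y, g.1 = a :: y ∧ (y, y') ∈ G

lemma TS.flip {t s : Kd} {n : ℕ} {G : Set (List ℕ × List ℕ)} (h : TS t s (n + 1) G) :
    TS s t n (Prod.swap ⁻¹' G) where
  fin := h.fin.preimage (Prod.swap_injective.injOn)
  root := h.root
  inj := fun g hg k hk => (h.inj _ hg _ hk).symm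
  dead := fun g hg => (h.dead _ hg).symm
  len := fun g hg hne => (h.len _ hg (fun h2 => hne ((h.dead _ hg).mp h2))).symm
  kinds := fun g hg κ κ' h1 h2 => ok_flip (h.kinds _ hg κ' κ h2 h1)
  upL := fun g hg a y h1 h2 => by
    obtain ⟨b, y', h3, h4⟩ := h.upR _ hg a y h1 h2
    exact ⟨b, y', h3, h4⟩
  upR := fun g hg a y h1 h2 => by
    obtain ⟨b, y', h3, h4⟩ := h.upL _ hg a y h1 h2
    exact ⟨b, y', h3, h4⟩

lemma TS.step {t s : Kd} (hs : {x | kd s x = none}.Infinite) {n : ℕ} : ∀ (x : List ℕ)
    (G : Set (List ℕ × List ℕ)), TS t s (n + 1) G → ∃ G', G ⊆ G' ∧ (∃ x', (x, x') ∈ G') ∧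
      TS t s (n + 1) G' := by
  intro x
  induction x with
  | nil => exact fun G h => ⟨G, subset_rfl, ⟨_, h.root⟩, h⟩
  | cons a y ih =>
    intro G h
    by_cases hx : ∃ x', (a :: y, x') ∈ G
    · exact ⟨G, subset_rfl, hx, h⟩
    by_cases hd : kd t (a :: y) = none
    · push Not at hx
      obtain ⟨x', hx'1, hx'2⟩ := hs.exists_notMem_finite (h.fin.image Prod.snd)
      have hx' : ∀ w, (w, x') ∉ G := fun w hw => hx'2 ⟨_, hw, rfl⟩
      refine ⟨insert (a :: y, x') G, Set.subset_insert _ _, ⟨x', Or.inl rfl⟩, ?_⟩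
      refine ⟨h.fin.insert _, Or.inr h.root, ?_, ?_, ?_, ?_, ?_, ?_⟩
      · rintro g (rfl | hg) k (rfl | hk)
        · simp
        · constructor
          · intro hh
            exact absurd (show (a :: y, k.2) ∈ G by rw [show a :: y = k.1 from hh]; exact hk) (hx _)
          · intro hh
            exact absurd (show (k.1, x') ∈ G by rw [show x' = k.2 from hh]; exact hk) (hx' _)
        · constructor
          · intro hh
            exact absurd (show (a :: y, g.2) ∈ G by
              rw [show a :: y = g.1 from hh.symm]; exact hg) (hx _)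
          · intro hh
            exact absurd (show (g.1, x') ∈ G by rw [show x' = g.2 from hh.symm]; exact hg) (hx' _)
        · exact h.inj g hg k hk
      · rintro g (rfl | hg)
        · exact iff_of_true hd hx'1
        · exact h.dead g hg
      · rintro g (rfl | hg) hne
        · exact absurd hd hne
        · exact h.len g hg hne
      · rintro g (rfl | hg) κ κ' h1 h2
        · have h1' : kd t (a :: y) = some κ := h1
          rw [hd] at h1'
          simp at h1'
        · exact h.kinds g hg κ κ' h1 h2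
      · rintro g (rfl | hg) a' y' h1 h2
        · exact absurd hd h2
        · obtain ⟨b, y2, h3, h4⟩ := h.upL g hg a' y' h1 h2
          exact ⟨b, y2, h3, Or.inr h4⟩
      · rintro g (rfl | hg) a' y' h1 h2
        · exact absurd hx'1 h2
        · obtain ⟨b, y2, h3, h4⟩ := h.upR g hg a' y' h1 h2
          exact ⟨b, y2, h3, Or.inr h4⟩
    · obtain ⟨G1, hG1, ⟨y', hy'⟩, h1⟩ := ih G h
      by_cases hx1 : ∃ x', (a :: y, x') ∈ G1
      · exact ⟨G1, hG1, hx1, h1⟩
      push Not at hx1
      obtain ⟨l, hl⟩ := Option.ne_none_iff_exists'.mp hd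
      obtain ⟨κ, hκ, hc⟩ : ∃ κ, kd t y = some κ ∧ child κ a = some l := by
        have : (kd t y).bind (fun κ => child κ a) = some l := hl
        rw [Option.bind_eq_some_iff] at this
        exact this
      obtain ⟨κ', hκ'⟩ : ∃ κ', kd s y' = some κ' := by
        apply Option.ne_none_iff_exists'.mp
        intro hn
        have := (h1.dead _ hy').mpr hn
        have h2 : kd t y = none := this
        rw [hκ] at h2
        simp at h2
      obtain ⟨l', hinf, hok⟩ := ok_child (h1.kinds _ hy' κ κ' hκ hκ') hc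
      have hinf2 : ((fun b => b :: y') '' {b | child κ' b = some l'}).Infinite :=
        hinf.image (fun b _ c _ hbc => (List.cons.inj hbc).1)
      obtain ⟨x', ⟨b, hb, rfl⟩, hx'2⟩ := hinf2.exists_notMem_finite (h1.fin.image Prod.snd)
      have hx' : ∀ w, (w, b :: y') ∉ G1 := fun w hw => hx'2 ⟨_, hw, rfl⟩
      have hb2 : kd s (b :: y') = some l' := by
        change (kd s y').bind (fun κ => child κ b) = some l'
        rw [hκ']
        exact hb
      refine ⟨insert (a :: y, b :: y') G1, hG1.trans (Set.subset_insert _ _),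
        ⟨b :: y', Or.inl rfl⟩, ?_⟩
      refine ⟨h1.fin.insert _, Or.inr h1.root, ?_, ?_, ?_, ?_, ?_, ?_⟩
      · rintro g (rfl | hg) k (rfl | hk)
        · simp
        · constructor
          · intro hh
            exact absurd (show (a :: y, k.2) ∈ G1 by
              rw [show a :: y = k.1 from hh]; exact hk) (hx1 _)
          · intro hh
            exact absurd (show (k.1, b :: y') ∈ G1 by
              rw [show b :: y' = k.2 from hh]; exact hk) (hx' _)
        · constructor
          · intro hh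
            exact absurd (show (a :: y, g.2) ∈ G1 by
              rw [show a :: y = g.1 from hh.symm]; exact hg) (hx1 _)
          · intro hh
            exact absurd (show (g.1, b :: y') ∈ G1 by
              rw [show b :: y' = g.2 from hh.symm]; exact hg) (hx' _)
        · exact h1.inj g hg k hk
      · rintro g (rfl | hg)
        · refine iff_of_false hd ?_
          change ¬ kd s (b :: y') = none
          rw [hb2]
          simp
        · exact h1.dead g hg
      · rintro g (rfl | hg) hne
        · have := h1.len _ hy' (by change kd t y ≠ none; rw [hκ]; simp)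
          have h3 : y.length = y'.length := this
          change (a :: y).length = (b :: y').length
          rw [List.length_cons, List.length_cons, h3]
        · exact h1.len g hg hne
      · rintro g (rfl | hg) μ μ' e1 e2
        · have e1' : kd t (a :: y) = some μ := e1
          have e2' : kd s (b :: y') = some μ' := e2
          rw [hl] at e1'
          rw [hb2] at e2'
          obtain rfl := Option.some.inj e1'
          obtain rfl := Option.some.inj e2'
          exact hok
        · exact h1.kinds g hg μ μ' e1 e2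
      · rintro g (rfl | hg) a' y2 e1 e2
        · obtain ⟨rfl, rfl⟩ := List.cons.inj (show a :: y = a' :: y2 from e1)
          exact ⟨b, y', rfl, Or.inr hy'⟩
        · obtain ⟨b, y2, h3, h4⟩ := h1.upL g hg a' y2 e1 e2
          exact ⟨b, y2, h3, Or.inr h4⟩
      · rintro g (rfl | hg) a' y2 e1 e2
        · obtain ⟨rfl, rfl⟩ := List.cons.inj (show b :: y' = a' :: y2 from e1)
          exact ⟨a, y, rfl, Or.inr hy'⟩
        · obtain ⟨b, y2, h3, h4⟩ := h1.upR g hg a' y2 e1 e2
          exact ⟨b, y2, h3, Or.inr h4⟩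

/-! ### Transfer of formulas of the prefix classes -/

/-- The relation on the models given by `G` (and the identity on `C`). -/
def RG (G : Set (List ℕ × List ℕ)) : C ⊕ List ℕ → C ⊕ List ℕ → Prop
  | Sum.inl c, Sum.inl c' => c = c'
  | Sum.inr x, Sum.inr y => (x, y) ∈ G
  | _, _ => False

lemma RG_mono {G G' : Set (List ℕ × List ℕ)} (h : G ⊆ G') {x y : C ⊕ List ℕ}
    (hxy : RG G x y) : RG G' x y := by
  rcases x with x | x <;> rcases y with y | y <;> simp only [RG] at hxy ⊢
  · exact hxy
  · exact h hxy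

lemma RG_swap {G : Set (List ℕ × List ℕ)} {x y : C ⊕ List ℕ}
    (hxy : RG G x y) : RG (Prod.swap ⁻¹' G) y x := by
  rcases x with x | x <;> rcases y with y | y <;> simp only [RG] at hxy ⊢
  · exact hxy.symm
  · exact hxy

lemma RG_eq {t s : Kd} {n : ℕ} {G : Set (List ℕ × List ℕ)} (h : TS t s n G)
    {x y x' y' : C ⊕ List ℕ} (hx : RG G x x') (hy : RG G y y') : x = y ↔ x' = y' := by
  rcases x with x | x <;> rcases y with y | y <;> rcases x' with x' | x' <;>
    rcases y' with y' | y' <;> simp only [RG] at hx hy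
  · subst hx
    subst hy
    exact Iff.rfl
  · simp
  · simp
  · simp only [Sum.inr.injEq]
    exact h.inj _ hx _ hy

lemma RG_Q {G : Set (List ℕ × List ℕ)} {x x' : C ⊕ List ℕ} (hx : RG G x x') (c : C) :
    x = Sum.inl c ↔ x' = Sum.inl c := by
  rcases x with x | x <;> rcases x' with x' | x' <;> simp only [RG] at hx
  · subst hx
    exact Iff.rfl
  · simp

lemma RG_P {t s : Kd} {n : ℕ} {G : Set (List ℕ × List ℕ)} (h : TS t s n G) (i : ℕ)
    {x y x' y' : C ⊕ List ℕ} (hx : RG G x x') (hy : RG G y y') : nP t i x y ↔ nP s i x' y' := by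
  rcases x with x | x <;> rcases y with y | y <;> rcases x' with x' | x' <;>
    rcases y' with y' | y' <;> simp only [RG] at hx hy
  · subst hx
    subst hy
    exact Iff.rfl
  · exact Iff.rfl
  · exact Iff.rfl
  · simp only [nP]
    constructor
    · rintro ⟨h1, ⟨a, rfl⟩, h2⟩
      obtain ⟨b, y2, h3, h4⟩ := h.upL _ hx a y rfl h2
      obtain rfl : y2 = y' := (h.inj _ h4 _ hy).mp rfl
      have h3' : x' = b :: y2 := h3
      refine ⟨?_, ⟨b, h3'⟩, fun hn => h2 ((h.dead _ hx).mpr hn)⟩
      have h5 : kd t y ≠ none := by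
        intro hn
        apply h2
        change (kd t y).bind _ = none
        rw [hn]
        rfl
      rw [← h.len _ hy h5]
      exact h1
    · rintro ⟨h1, ⟨b, rfl⟩, h2⟩
      obtain ⟨a, y2, h3, h4⟩ := h.upR _ hx b y' rfl h2
      obtain rfl : y2 = y := (h.inj _ h4 _ hy).mpr rfl
      have h3' : x = a :: y2 := h3
      have h6 : kd t x ≠ none := fun hn => h2 ((h.dead _ hx).mp hn)
      refine ⟨?_, ⟨a, h3'⟩, h6⟩
      have h5 : kd t y2 ≠ none := by
        intro hn
        apply h6
        rw [h3']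
        change (kd t y2).bind _ = none
        rw [hn]
        rfl
      rw [h.len _ hy h5]
      exact h1

section transfer

variable {α : Type}

lemma transfer_qf {t s : Kd} {n : ℕ} {G : Set (List ℕ × List ℕ)} (h : TS t s n G) {m : ℕ}
    {φ : L.BoundedFormula α m} (hφ : φ.IsQF) (v : α → NT t) (w : α → NT s)
    (xs : Fin m → NT t) (ys : Fin m → NT s) (hv : ∀ k, RG G (v k) (w k))
    (hxs : ∀ k, RG G (xs k) (ys k)) : φ.Realize v xs ↔ φ.Realize w ys := by
  have hvar : ∀ k : α ⊕ Fin m, RG G (Sum.elim v xs k) (Sum.elim w ys k) := by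
    rintro (k | k)
    · exact hv k
    · exact hxs k
  induction hφ with
  | falsum => exact Iff.rfl
  | of_isAtomic ha =>
    cases ha with
    | equal t1 t2 =>
      obtain ⟨k1, rfl⟩ := term_var t1
      obtain ⟨k2, rfl⟩ := term_var t2
      exact RG_eq h (hvar k1) (hvar k2)
    | rel R ts =>
      cases R with
      | P i =>
        obtain ⟨k1, h1⟩ := term_var (ts 0)
        obtain ⟨k2, h2⟩ := term_var (ts 1)
        change Structure.RelMap (sP i) _ ↔ Structure.RelMap (sP i) _
        rw [relMap_two (V := NT t), relMap_two (V := NT s)]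
        simp only [h1, h2, Term.realize_var]
        exact RG_P h i (hvar k1) (hvar k2)
      | Q c =>
        obtain ⟨k1, h1⟩ := term_var (ts 0)
        change Structure.RelMap (sQ c) _ ↔ Structure.RelMap (sQ c) _
        rw [relMap_one (V := NT t), (good_NT t).nam, relMap_one (V := NT s), (good_NT s).nam]
        simp only [h1, Term.realize_var]
        exact RG_Q (hvar k1) c
  | imp _ _ ih1 ih2 =>
    rw [BoundedFormula.realize_imp, BoundedFormula.realize_imp]
    exact imp_congr ih1 ih2

lemma TS.step' {t s : Kd} (hs : {x | kd s x = none}.Infinite) {n : ℕ}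
    {G : Set (List ℕ × List ℕ)} (h : TS t s (n + 1) G) (x : C ⊕ List ℕ) :
    ∃ G', G ⊆ G' ∧ (∃ x', RG G' x x') ∧ TS t s (n + 1) G' := by
  rcases x with c | x
  · exact ⟨G, subset_rfl, ⟨Sum.inl c, rfl⟩, h⟩
  · obtain ⟨G', h1, ⟨x', h2⟩, h3⟩ := h.step hs x
    exact ⟨G', h1, ⟨Sum.inr x', h2⟩, h3⟩

lemma RG_snoc {G G' : Set (List ℕ × List ℕ)} (hG : G ⊆ G') {m : ℕ} {xs ys : Fin m → C ⊕ List ℕ}
    (hxs : ∀ k, RG G (xs k) (ys k)) {x y : C ⊕ List ℕ} (hxy : RG G' x y) (k : Fin (m + 1)) :
    RG G' (Fin.snoc (α := fun _ => C ⊕ List ℕ) xs x k)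
      (Fin.snoc (α := fun _ => C ⊕ List ℕ) ys y k) := by
  refine Fin.lastCases ?_ (fun k => ?_) k
  · simpa using hxy
  · simpa using RG_mono hG (hxs k)

lemma transfer {b : Bool} {n m : ℕ} {φ : L.BoundedFormula α m} (hφ : IsPref b n φ) :
    ∀ (t s : Kd), {x | kd t x = none}.Infinite → {x | kd s x = none}.Infinite →
    ∀ (G : Set (List ℕ × List ℕ)), TS t s n G → ∀ (v : α → NT t) (w : α → NT s)
    (xs : Fin m → NT t) (ys : Fin m → NT s), (∀ k, RG G (v k) (w k)) →
    (∀ k, RG G (xs k) (ys k)) →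
    (b = false → φ.Realize v xs → φ.Realize w ys) ∧
      (b = true → φ.Realize w ys → φ.Realize v xs) := by
  induction hφ with
  | qf h =>
    intro t s _ _ G hG v w xs ys hv hxs
    have := transfer_qf hG h v w xs ys hv hxs
    exact ⟨fun _ => this.mp, fun _ => this.mpr⟩
  | @switch b n m φ h ih =>
    intro t s ht hs G hG v w xs ys hv hxs
    have := ih s t hs ht _ hG.flip w v ys xs (fun k => RG_swap (hv k)) (fun k => RG_swap (hxs k))
    cases b
    · exact ⟨fun _ => this.2 rfl, fun h => by simp at h⟩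
    · exact ⟨fun h => by simp at h, fun _ => this.1 rfl⟩
  | all h ih =>
    intro t s ht hs G hG v w xs ys hv hxs
    refine ⟨fun h => by simp at h, fun _ hh x => ?_⟩
    obtain ⟨G', h1, ⟨y, h2⟩, h3⟩ := hG.step' hs x
    exact (ih t s ht hs G' h3 v w (Fin.snoc xs x) (Fin.snoc ys y) (fun k => RG_mono h1 (hv k))
      (fun k => RG_snoc h1 hxs h2 k)).2 rfl (hh y)
  | ex h ih =>
    intro t s ht hs G hG v w xs ys hv hxs
    refine ⟨fun _ hh => ?_, fun h => by simp at h⟩
    rw [BoundedFormula.realize_ex] at hh ⊢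
    obtain ⟨x, hx⟩ := hh
    obtain ⟨G', h1, ⟨y, h2⟩, h3⟩ := hG.step' hs x
    exact ⟨y, (ih t s ht hs G' h3 v w (Fin.snoc xs x) (Fin.snoc ys y) (fun k => RG_mono h1 (hv k))
      (fun k => RG_snoc h1 hxs h2 k)).1 rfl hx⟩

end transfer

/-! ### The distinguishing formulas -/

/-- The game with alternation: `x` (of level `i`) has a child which loses the game. -/
def asem {V : Type} (P : ℕ → V → V → Prop) : ℕ → ℕ → V → Prop
  | 0, i, x => ∃ y, P i y x
  | k + 1, i, x => ∃ y, P i y x ∧ ¬ asem P k (i + 1) y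

/-- The formulas expressing `asem`. -/
noncomputable def af (α : Type) : ℕ → ℕ → (m : ℕ) → L.BoundedFormula α (m + 1)
  | 0, i, m => ((sP i).boundedFormula₂ (&(Fin.last (m + 1)))
      (&(Fin.castSucc (Fin.last m)))).ex
  | k + 1, i, m => (((sP i).boundedFormula₂ (&(Fin.last (m + 1)))
      (&(Fin.castSucc (Fin.last m)))) ⊓ (af α k (i + 1) (m + 1)).not).ex

lemma realize_af {α V : Type} [L.Structure V] (v : α → V) : ∀ (k i m : ℕ) (xs : Fin (m + 1) → V),
    (af α k i m).Realize v xs ↔ asem (rP V) k i (xs (Fin.last m)) := by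
  intro k
  induction k with
  | zero =>
    intro i m xs
    rw [af, BoundedFormula.realize_ex]
    simp only [BoundedFormula.realize_rel₂, Function.comp_apply, Term.realize_var, Sum.elim_inr,
      Fin.snoc_last, Fin.snoc_castSucc]
    exact Iff.rfl
  | succ k ih =>
    intro i m xs
    rw [af, BoundedFormula.realize_ex]
    simp only [BoundedFormula.realize_rel₂, Function.comp_apply, Term.realize_var, Sum.elim_inr,
      Fin.snoc_last, Fin.snoc_castSucc, BoundedFormula.realize_inf, BoundedFormula.realize_not, ih]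
    exact Iff.rfl

/-- The distinguishing formula, about the free variable. -/
noncomputable def bf (K : ℕ) : L.Formula (Fin 1) :=
  (((sP 0).boundedFormula₂ (&0) (Term.var (Sum.inl 0))) ⊓
    (af (Fin 1) K 1 0).not : L.BoundedFormula (Fin 1) 1).ex

lemma realize_bf {V : Type} [L.Structure V] (v : Fin 1 → V) (K : ℕ) :
    (bf K).Realize v ↔ asem (rP V) (K + 1) 0 (v 0) := by
  rw [bf, Formula.Realize, BoundedFormula.realize_ex]
  simp only [BoundedFormula.realize_rel₂, Term.realize_var, Sum.elim_inr, Sum.elim_inl,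
      BoundedFormula.realize_inf, BoundedFormula.realize_not, realize_af]
  exact Iff.rfl

/-- The value of the game, on kinds. -/
def val : ℕ → Kd → Prop
  | 0, κ => ∃ a, child κ a ≠ none
  | k + 1, κ => ∃ a l, child κ a = some l ∧ ¬ val k l

lemma asem_val (t : Kd) : ∀ (k : ℕ) (x : List ℕ) (κ : Kd), kd t x = some κ →
    (asem (nP t) k x.length (Sum.inr x) ↔ val k κ) := by
  intro k
  induction k with
  | zero =>
    intro x κ hκ
    constructor
    · rintro ⟨y | y, hy⟩
      · exact hy.elim
      · obtain ⟨_, ⟨a, rfl⟩, hy⟩ := hy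
        refine ⟨a, ?_⟩
        change (kd t x).bind _ ≠ none at hy
        rw [hκ] at hy
        exact hy
    · rintro ⟨a, ha⟩
      refine ⟨Sum.inr (a :: x), rfl, ⟨a, rfl⟩, ?_⟩
      change (kd t x).bind _ ≠ none
      rw [hκ]
      exact ha
  | succ k ih =>
    intro x κ hκ
    constructor
    · rintro ⟨y | y, hy, hn⟩
      · exact hy.elim
      · obtain ⟨_, ⟨a, rfl⟩, hy⟩ := hy
        obtain ⟨l, hl⟩ := Option.ne_none_iff_exists'.mp hy
        refine ⟨a, l, ?_, fun hv => hn ((ih (a :: x) l hl).mpr hv)⟩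
        change (kd t x).bind _ = some l at hl
        rw [hκ] at hl
        exact hl
    · rintro ⟨a, l, ha, hn⟩
      have hl : kd t (a :: x) = some l := by
        change (kd t x).bind _ = some l
        rw [hκ]
        exact ha
      exact ⟨Sum.inr (a :: x), ⟨rfl, ⟨a, rfl⟩, by rw [hl]; simp⟩,
        fun hv => hn ((ih (a :: x) l hl).mp hv)⟩

lemma val_le : ∀ k j, j ≤ k → val k (Kd.A j) ∧ ¬ val k (Kd.B j) := by
  intro k
  induction k with
  | zero =>
    intro j hj
    obtain rfl : j = 0 := by omega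
    exact ⟨⟨0, by simp [child]⟩, fun ⟨a, ha⟩ => ha rfl⟩
  | succ k ih =>
    intro j hj
    cases j with
    | zero =>
      refine ⟨⟨0, _, rfl, (ih 0 (Nat.zero_le _)).2⟩, ?_⟩
      rintro ⟨a, l, ha, _⟩
      simp [child] at ha
    | succ j =>
      refine ⟨⟨1, _, child_A_B j, (ih j (by omega)).2⟩, ?_⟩
      rintro ⟨a, l, ha, hn⟩
      simp only [child, Option.some.injEq] at ha
      subst ha
      exact hn (ih j (by omega)).1

lemma val_gt : ∀ k j, k < j → (val k (Kd.A j) ↔ Even k) ∧ (val k (Kd.B j) ↔ Even k) := by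
  intro k
  induction k with
  | zero =>
    intro j hj
    obtain ⟨j, rfl⟩ : ∃ j', j = j' + 1 := ⟨j - 1, by omega⟩
    refine ⟨iff_of_true ⟨0, by simp [child]⟩ (by simp), iff_of_true ⟨0, by simp [child]⟩ (by simp)⟩
  | succ k ih =>
    intro j hj
    obtain ⟨j, rfl⟩ : ∃ j', j = j' + 1 := ⟨j - 1, by omega⟩
    have h1 := ih j (by omega)
    have he : Even (k + 1) ↔ ¬ Even k := Nat.even_add_one
    rw [he]
    constructor
    · constructor
      · rintro ⟨a, l, ha, hn⟩
        by_cases hev : Even a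
        · simp only [child, hev, if_true, Option.some.injEq] at ha
          subst ha
          exact fun h => hn (h1.1.mpr h)
        · simp only [child, hev, if_false, Option.some.injEq] at ha
          subst ha
          exact fun h => hn (h1.2.mpr h)
      · intro h
        exact ⟨0, _, child_A_A j, fun hv => h (h1.1.mp hv)⟩
    · constructor
      · rintro ⟨a, l, ha, hn⟩
        simp only [child, Option.some.injEq] at ha
        subst ha
        exact fun h => hn (h1.1.mpr h)
      · intro h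
        exact ⟨0, _, rfl, fun hv => h (h1.1.mp hv)⟩

lemma val_T {K : ℕ} (hK : Even K) : ¬ val (K + 1) Kd.T := by
  rintro ⟨a, l, ha, hn⟩
  simp only [child, Option.some.injEq] at ha
  subst ha
  apply hn
  by_cases h : a.unpair.1 ≤ K
  · exact (val_le K _ h).1
  · exact (val_gt K _ (by omega)).1.mpr hK

lemma val_T' (K : ℕ) : val (K + 1) (Kd.T' K) :=
  ⟨1, _, child_T'_B K, (val_le K K le_rfl).2⟩

lemma dead_T : {x | kd Kd.T x = none}.Infinite := by
  apply Set.infinite_of_injective_forall_mem (f := fun n : ℕ => [n, 0, 0])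
  · intro m n h
    simpa using h
  · intro n
    simp [kd, child]

lemma dead_T' (K : ℕ) : {x | kd (Kd.T' K) x = none}.Infinite := by
  apply Set.infinite_of_injective_forall_mem (f := fun n : ℕ => [n, 0, 0])
  · intro m n h
    simpa using h
  · intro n
    simp [kd, child]

lemma ts_init {n K : ℕ} (h : n ≤ K + 1) : TS (Kd.T' K) Kd.T n {([], [])} where
  fin := Set.finite_singleton _
  root := rfl
  inj := by
    rintro g rfl k rfl
    simp
  dead := by
    rintro g rfl
    simp [kd]
  len := by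
    rintro g rfl _
    rfl
  kinds := by
    rintro g rfl κ κ' h1 h2
    obtain rfl : Kd.T' K = κ := Option.some.inj h1
    obtain rfl : Kd.T = κ' := Option.some.inj h2
    exact Or.inr (Or.inr (Or.inr (Or.inl ⟨K, rfl, rfl, h⟩)))
  upL := by
    rintro g rfl a y h1
    simp at h1
  upR := by
    rintro g rfl a y h1
    simp at h1

/-! ### The main theorem -/

lemma isQF_constantsVarsEquiv {γ α : Type} {m : ℕ} {φ : L[[γ]].BoundedFormula α m}
    (h : φ.IsQF) : (BoundedFormula.constantsVarsEquiv φ).IsQF := by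
  induction h with
  | falsum => exact BoundedFormula.IsQF.falsum
  | of_isAtomic ha =>
    cases ha with
    | equal t1 t2 => exact (BoundedFormula.IsAtomic.equal _ _).isQF
    | rel R ts => exact (BoundedFormula.IsAtomic.rel _ _).isQF
  | imp _ _ ih1 ih2 => exact BoundedFormula.IsQF.imp ih1 ih2

lemma isPref_constantsVarsEquiv {γ α : Type} {b : Bool} {n m : ℕ}
    {φ : L[[γ]].BoundedFormula α m} (h : IsPref b n φ) :
    IsPref b n (BoundedFormula.constantsVarsEquiv φ) := by
  induction h with
  | qf h => exact IsPref.qf (isQF_constantsVarsEquiv h)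
  | switch _ ih => exact IsPref.switch ih
  | all _ ih => exact IsPref.all ih
  | ex _ ih => exact IsPref.ex ih

/-- `T` has an axiomatization consisting of `∀ₙ`-sentences (for `b = true`), respectively of
`∃ₙ`-sentences (for `b = false`). -/
def Axiomatizable {L' : FirstOrder.Language.{0, 0}} (b : Bool) (n : ℕ) (T : L'.Theory) : Prop :=
  ∃ Γ : L'.Theory, (∀ σ ∈ Γ, IsPref b n σ) ∧
    ∀ (M : Type) [L'.Structure M] [Nonempty M], M ⊨ Γ ↔ M ⊨ T

/-- `T` is bounded: it is `∀ₙ`-axiomatizable for some `n`. -/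
def Bounded {L' : FirstOrder.Language.{0, 0}} (T : L'.Theory) : Prop :=
  ∃ n, Axiomatizable true n T

instance : Nonempty C := ⟨⟨1, (fun _ => none, fun _ => 0, 0), 0⟩⟩

instance (t : Kd) : Nonempty (NT t) := ⟨(Sum.inr [] : C ⊕ List ℕ)⟩

lemma NT_models (t : Kd) : NT t ⊨ L.completeTheory C := by
  rw [Theory.model_iff]
  intro φ hφ
  exact (good_equiv good_C (good_NT t) φ).mp hφ

lemma axiomatizable_C : Axiomatizable false 2 (L.completeTheory C) := by
  refine ⟨{σ | IsPref false 2 σ ∧ C ⊨ σ}, fun σ hσ => hσ.1, ?_⟩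
  intro M _ _
  constructor
  · intro hM
    rw [Theory.model_iff] at hM ⊢
    obtain ⟨e, he⟩ := exists_good (N := M) (fun σ h1 h2 => hM σ ⟨h1, h2⟩)
    intro φ hφ
    exact (good_equiv good_C he φ).mp hφ
  · intro hM
    rw [Theory.model_iff] at hM ⊢
    exact fun φ hφ => hM φ hφ.2

/-- The type of the root in `NT T`. -/
noncomputable def rootType : (L.completeTheory C).CompleteType (Fin 1) :=
  haveI := NT_models Kd.T
  (L.completeTheory C).typeOf (M := NT Kd.T) (fun _ => (Sum.inr [] : C ⊕ List ℕ))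

lemma rootType_unbounded : ¬ Bounded rootType.toTheory := by
  rintro ⟨n, Γ, hΓ, h⟩
  haveI hT := NT_models Kd.T
  obtain ⟨K, hK, hnK⟩ : ∃ K, Even K ∧ n ≤ K + 1 := ⟨2 * n, by simp, by omega⟩
  let v : Fin 1 → NT Kd.T := fun _ => (Sum.inr [] : C ⊕ List ℕ)
  let w : Fin 1 → NT (Kd.T' K) := fun _ => (Sum.inr [] : C ⊕ List ℕ)
  letI s1 : (constantsOn (Fin 1)).Structure (NT Kd.T) := constantsOn.structure v
  letI s2 : (constantsOn (Fin 1)).Structure (NT (Kd.T' K)) := constantsOn.structure w
  have h1 : NT Kd.T ⊨ Γ := by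
    rw [h (NT Kd.T), Theory.model_iff]
    intro φ hφ
    exact hφ
  have h2 : NT (Kd.T' K) ⊨ Γ := by
    rw [Theory.model_iff] at h1 ⊢
    intro φ hφ
    have h3 := h1 φ hφ
    have h4 := isPref_constantsVarsEquiv (hΓ φ hφ)
    rw [Sentence.Realize, Formula.Realize, ← BoundedFormula.realize_constantsVarsEquiv] at h3 ⊢
    refine (transfer h4 (Kd.T' K) Kd.T (dead_T' K) dead_T _ (ts_init hnK) _ _ _ _ ?_ ?_).2 rfl h3
    · rintro (k | k)
      · exact rfl
      · exact k.elim
    · exact fun k => k.elim0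
  have h3 : NT (Kd.T' K) ⊨ rootType.toTheory := (h (NT (Kd.T' K))).mp h2
  have h4 : Formula.equivSentence (bf K).not ∈ rootType.toTheory := by
    have : Formula.equivSentence (bf K).not ∈
        (L.completeTheory C).typeOf (M := NT Kd.T) v := by
      rw [Theory.CompleteType.formula_mem_typeOf]
      intro hh
      have h5 := (realize_bf v K).mp hh
      exact val_T hK ((asem_val Kd.T (K + 1) [] Kd.T rfl).mp h5)
    exact this
  rw [Theory.model_iff] at h3
  have h5 := h3 _ h4
  rw [Formula.realize_equivSentence] at h5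
  apply h5
  apply (realize_bf _ K).mpr
  exact (asem_val (Kd.T' K) (K + 1) [] (Kd.T' K) rfl).mpr (val_T' K)

/-- There are a countable relational language and a complete `∃₂`-axiomatizable theory in it
with an unbounded 1-type. -/
theorem result : ∃ L : FirstOrder.Language.{0, 0}, L.IsRelational ∧
    Countable (Σ n, L.Relations n) ∧ ∃ T : L.Theory, T.IsComplete ∧ Axiomatizable false 2 T ∧
    ∃ p : T.CompleteType (Fin 1), ¬ Bounded p.toTheory := by
  refine ⟨L, fun n => inferInstanceAs (IsEmpty Empty), ?_, L.completeTheory C,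
    completeTheory.isComplete L C, axiomatizable_C, rootType, rootType_unbounded⟩
  have hinj : Function.Injective (fun r : Σ n, L.Relations n => match r with
    | ⟨_, Rels.P i⟩ => (Sum.inl i : ℕ ⊕ C)
    | ⟨_, Rels.Q c⟩ => Sum.inr c) := by
    rintro ⟨_, r⟩ ⟨_, r'⟩ h
    cases r <;> cases r' <;> simp at h
    · subst h; rfl
    · subst h; rfl
  exact hinj.countable

end Pool.Agent.Results.MP_ba14eb_lc.UnboundedTypes
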